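import Pool.Agent.T2H43.LK.Horse

set_option autoImplicit false

/-!
# The ring `A[y,z]/(y²,z²)`
-/

namespace Pool.Agent.T2H43.LK

/-- `A[y,z]/(y²,z²)`: `(a, b, c, d)` stands for `a + b y + c z + d y z`. -/
def D2 (A : Type) : Type := A × A × A × A

namespace D2

variable {A : Type} [CommRing A]

instance : AddCommGroup (D2 A) := inferInstanceAs (AddCommGroup (A × A × A × A))
instance instModSelf : Module A (D2 A) := inferInstanceAs (Module A (A × A × A × A))

def mk (a b c d : A) : D2 A := (a, b, c, d)
def pa (x : D2 A) : A := x.1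
def pb (x : D2 A) : A := x.2.1
def pc (x : D2 A) : A := x.2.2.1
def pd (x : D2 A) : A := x.2.2.2

@[simp] theorem pa_mk (a b c d : A) : pa (mk a b c d) = a := rfl
@[simp] theorem pb_mk (a b c d : A) : pb (mk a b c d) = b := rfl
@[simp] theorem pc_mk (a b c d : A) : pc (mk a b c d) = c := rfl
@[simp] theorem pd_mk (a b c d : A) : pd (mk a b c d) = d := rfl

@[simp] theorem pa_add (x y : D2 A) : pa (x + y) = pa x + pa y := rfl
@[simp] theorem pb_add (x y : D2 A) : pb (x + y) = pb x + pb y := rfl
@[simp] theorem pc_add (x y : D2 A) : pc (x + y) = pc x + pc y := rfl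
@[simp] theorem pd_add (x y : D2 A) : pd (x + y) = pd x + pd y := rfl

@[simp] theorem pa_zero : pa (0 : D2 A) = 0 := rfl
@[simp] theorem pb_zero : pb (0 : D2 A) = 0 := rfl
@[simp] theorem pc_zero : pc (0 : D2 A) = 0 := rfl
@[simp] theorem pd_zero : pd (0 : D2 A) = 0 := rfl

@[simp] theorem pa_smul (t : A) (x : D2 A) : pa (t • x) = t * pa x := rfl
@[simp] theorem pb_smul (t : A) (x : D2 A) : pb (t • x) = t * pb x := rfl
@[simp] theorem pc_smul (t : A) (x : D2 A) : pc (t • x) = t * pc x := rfl
@[simp] theorem pd_smul (t : A) (x : D2 A) : pd (t • x) = t * pd x := rfl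

theorem ext' {x y : D2 A} (h1 : pa x = pa y) (h2 : pb x = pb y) (h3 : pc x = pc y)
    (h4 : pd x = pd y) : x = y :=
  Prod.ext h1 (Prod.ext h2 (Prod.ext h3 h4))

instance : Mul (D2 A) := ⟨fun x y => mk (pa x * pa y) (pa x * pb y + pb x * pa y)
  (pa x * pc y + pc x * pa y) (pa x * pd y + pd x * pa y + pb x * pc y + pc x * pb y)⟩

instance : One (D2 A) := ⟨mk 1 0 0 0⟩

@[simp] theorem pa_mul (x y : D2 A) : pa (x * y) = pa x * pa y := rfl
@[simp] theorem pb_mul (x y : D2 A) : pb (x * y) = pa x * pb y + pb x * pa y := rfl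
@[simp] theorem pc_mul (x y : D2 A) : pc (x * y) = pa x * pc y + pc x * pa y := rfl
@[simp] theorem pd_mul (x y : D2 A) :
    pd (x * y) = pa x * pd y + pd x * pa y + pb x * pc y + pc x * pb y := rfl
@[simp] theorem pa_one : pa (1 : D2 A) = 1 := rfl
@[simp] theorem pb_one : pb (1 : D2 A) = 0 := rfl
@[simp] theorem pc_one : pc (1 : D2 A) = 0 := rfl
@[simp] theorem pd_one : pd (1 : D2 A) = 0 := rfl

instance : CommRing (D2 A) :=
  { (inferInstance : AddCommGroup (D2 A)) with
    mul := (· * ·)
    one := 1
    left_distrib := fun a b c => by apply ext' <;> simp <;> ring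
    right_distrib := fun a b c => by apply ext' <;> simp <;> ring
    zero_mul := fun a => by apply ext' <;> simp
    mul_zero := fun a => by apply ext' <;> simp
    mul_assoc := fun a b c => by apply ext' <;> simp <;> ring
    one_mul := fun a => by apply ext' <;> simp
    mul_one := fun a => by apply ext' <;> simp
    mul_comm := fun a b => by apply ext' <;> simp <;> ring }

@[simp] theorem pa_neg (x : D2 A) : pa (-x) = - pa x := rfl
@[simp] theorem pb_neg (x : D2 A) : pb (-x) = - pb x := rfl
@[simp] theorem pc_neg (x : D2 A) : pc (-x) = - pc x := rfl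
@[simp] theorem pd_neg (x : D2 A) : pd (-x) = - pd x := rfl

instance : Algebra A (D2 A) :=
  Algebra.ofModule
    (fun t x y => by apply ext' <;> simp <;> ring)
    (fun t x y => by apply ext' <;> simp <;> ring)

theorem algebraMap_eq (a : A) : algebraMap A (D2 A) a = mk a 0 0 0 := by
  rw [Algebra.algebraMap_eq_smul_one]
  apply ext' <;> simp

/-- the projection -/
def prj (A : Type) [CommRing A] : D2 A →+* A where
  toFun := pa
  map_one' := rfl
  map_mul' _ _ := rfl
  map_zero' := rfl
  map_add' _ _ := rfl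

theorem nilp {x : D2 A} (hx : pa x = 0) : x ^ 3 = 0 := by
  have : x ^ 3 = x * x * x := by ring
  rw [this]
  apply ext' <;> simp [hx]

theorem isUnit_iff (x : D2 A) : IsUnit x ↔ IsUnit (pa x) := by
  constructor
  · intro h
    exact h.map (prj A)
  · intro h
    have h1 : IsUnit (algebraMap A (D2 A) (pa x)) := h.map _
    have h2 : IsNilpotent (x - algebraMap A (D2 A) (pa x)) := by
      refine ⟨3, nilp ?_⟩
      rw [algebraMap_eq, sub_eq_add_neg, pa_add, pa_neg, pa_mk, add_neg_cancel]
    have h3 := IsNilpotent.isUnit_add_left_of_commute h2 h1 (Commute.all _ _)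
    rwa [add_sub_cancel] at h3

instance [Nontrivial A] : Nontrivial (D2 A) := ⟨⟨0, 1, fun h => by
  have := congrArg pa h
  simp at this⟩⟩

instance [IsLocalRing A] : IsLocalRing (D2 A) := by
  refine IsLocalRing.of_nonunits_add ?_
  intro a b ha hb
  rw [mem_nonunits_iff, isUnit_iff] at ha hb ⊢
  rw [pa_add]
  exact IsLocalRing.nonunits_add ha hb

theorem mem_max [IsLocalRing A] (x : D2 A) :
    x ∈ IsLocalRing.maximalIdeal (D2 A) ↔ pa x ∈ IsLocalRing.maximalIdeal A := by
  rw [IsLocalRing.mem_maximalIdeal, mem_nonunits_iff, isUnit_iff, IsLocalRing.mem_maximalIdeal,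
    mem_nonunits_iff]

/-- the four coordinates -/
def coords (A : Type) [CommRing A] : D2 A ≃ₗ[A] (Fin 4 → A) where
  toFun x := ![pa x, pb x, pc x, pd x]
  map_add' x y := by
    funext i
    fin_cases i <;> rfl
  map_smul' t x := by
    funext i
    fin_cases i <;> rfl
  invFun v := mk (v 0) (v 1) (v 2) (v 3)
  left_inv x := rfl
  right_inv v := by
    funext i
    fin_cases i <;> rfl

instance : Module.Finite A (D2 A) := Module.Finite.equiv (coords A).symm
instance : Module.Free A (D2 A) := Module.Free.of_equiv (coords A).symm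

instance [IsNoetherianRing A] : IsNoetherianRing (D2 A) := IsNoetherianRing.of_finite A (D2 A)

/-- the coordinates of vectors -/
noncomputable def coordsPi (A : Type) [CommRing A] (h : ℕ) :
    (Fin h → D2 A) ≃ₗ[A] (Fin (h * 4) → A) :=
  ((LinearEquiv.piCongrRight (fun _ : Fin h => coords A)).trans
    (LinearEquiv.curry A A (Fin h) (Fin 4)).symm).trans
    (LinearEquiv.funCongrLeft A A finProdFinEquiv.symm)

/-- Betti numbers over `A` are at most four times those over `D2 A`. -/
theorem betti_le [IsLocalRing A] [IsNoetherianRing A] (M : Type) [AddCommGroup M]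
    [Module A M] [Module (D2 A) M] [IsScalarTower A (D2 A) M] [Module.Finite (D2 A) M] (n : ℕ) :
    betti A M n ≤ 4 * betti (D2 A) M n := by
  obtain ⟨P, hP⟩ := exists_min_res (D2 A) M
  rw [P.betti_eq hP]
  have h1 := length_tor_le (S := A) (fun i => (Fin (P.h i) → D2 A))
    (fun i => (P.D i).restrictScalars A) (IsLocalRing.ResidueField A)
    (fun i => by
      ext x
      have h4 : x ∈ LinearMap.range (P.D (i + 1)) ↔ x ∈ LinearMap.ker (P.D i) := by
        rw [P.hex i]
      exact h4) (P.π.restrictScalars A) P.hπ (by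
      ext x
      have h4 : x ∈ LinearMap.range (P.D 0) ↔ x ∈ LinearMap.ker P.π := by
        rw [P.hker]
      exact h4) n
  rw [length_tensor_equiv _ _ (coordsPi A (P.h n)), length_res, mul_one] at h1
  refine h1.trans (le_of_eq ?_)
  push_cast
  rw [mul_comm]

end D2

end Pool.Agent.T2H43.LK
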