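import Mathlib

set_option autoImplicit false

open CategoryTheory

/-!
# Definitions: Betti numbers, complexity, curvature, Gorenstein linkage
-/

namespace Pool.Agent.T2H43.LK

/-- The Betti numbers `β_n(M) = dim_k Tor_n(k, M)` of a module over a local ring `S` with residue
field `k` (the length of a `k`-vector space is its dimension). -/
noncomputable def betti (S : Type) [CommRing S] [IsLocalRing S] (M : Type) [AddCommGroup M]
    [Module S M] (n : ℕ) : ℕ∞ :=
  Module.length S (((Tor (ModuleCat.{0} S) n).obj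
    (ModuleCat.of S (IsLocalRing.ResidueField S))).obj (ModuleCat.of S M))

/-- `β_n ≤ c n^(d-1)` for all `n ≥ 1`, for some constant `c > 0`. -/
def GrowthLe (β : ℕ → ℕ∞) (d : NNReal) : Prop :=
  ∃ c : ℝ, 0 < c ∧ ∀ n : ℕ, 1 ≤ n →
    ((β n : ℕ∞) : ENNReal) ≤ ENNReal.ofReal (c * (n : ℝ) ^ ((d : ℝ) - 1))

/-- The complexity `cx_S(M) = inf {d ≥ 0 : ∃ c > 0, β_n(M) ≤ c n^(d-1) for all n ≥ 1}`. -/
noncomputable def cx (S : Type) [CommRing S] [IsLocalRing S] (M : Type) [AddCommGroup M]
    [Module S M] : ENNReal :=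
  ⨅ (d : NNReal) (_ : GrowthLe (betti S M) d), (d : ENNReal)

/-- The curvature `curv_S(M) = limsup β_n(M)^(1/n)`. -/
noncomputable def curv (S : Type) [CommRing S] [IsLocalRing S] (M : Type) [AddCommGroup M]
    [Module S M] : ENNReal :=
  Filter.limsup (fun n : ℕ => ((betti S M n : ℕ∞) : ENNReal) ^ (1 / (n : ℝ))) Filter.atTop

/-- The grade of an ideal: the supremum of the lengths of the `S`-regular sequences in it. -/
noncomputable def grade {S : Type} [CommRing S] (a : Ideal S) : ℕ∞ :=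
  ⨆ (rs : List S) (_ : (∀ r ∈ rs, r ∈ a) ∧ RingTheory.Sequence.IsRegular S rs),
    ((rs.length : ℕ) : ℕ∞)

/-- Gorenstein local rings: Noetherian local rings of finite injective dimension. -/
def IsGorensteinLocal (S : Type) [CommRing S] : Prop :=
  IsNoetherianRing S ∧ IsLocalRing S ∧ ∃ n : ℕ, HasInjectiveDimensionLE (ModuleCat.of S S) n

/-- Cohen-Macaulay local rings: Noetherian local rings whose depth (the grade of the maximal ideal)
is the Krull dimension. -/
def IsCMLocal (S : Type) [CommRing S] : Prop :=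
  IsNoetherianRing S ∧ ∃ _ : IsLocalRing S,
    (grade (IsLocalRing.maximalIdeal S) : WithBot ℕ∞) = ringKrullDim S

/-- `a` is a Gorenstein perfect ideal: `pd (S/a) = grade a < ∞` and `S/a` is Gorenstein. -/
def IsGorensteinPerfect {S : Type} [CommRing S] (a : Ideal S) : Prop :=
  projectiveDimension (ModuleCat.of S (S ⧸ a)) = (grade a : WithBot ℕ∞) ∧ grade a < ⊤ ∧
    IsGorensteinLocal (S ⧸ a)

/-- `I` and `J` are linked by `a`: `a ⊆ I ∩ J`, `I = (a : J)` and `J = (a : I)`. -/
def IsLinked {S : Type} [CommRing S] (a I J : Ideal S) : Prop :=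
  a ≤ I ⊓ J ∧ (∀ x, x ∈ I ↔ ∀ y ∈ J, x * y ∈ a) ∧ (∀ y, y ∈ J ↔ ∀ x ∈ I, y * x ∈ a)

end Pool.Agent.T2H43.LK
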