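import Pool.Agent.T2H43.LK.Defs

set_option autoImplicit false

open CategoryTheory

/-!
# Frobenius algebras, Artinian rings
-/

namespace Pool.Agent.T2H43.LK

section frob

variable {k S : Type} [Field k] [CommRing S] [Algebra k S] [FiniteDimensional k S]
  (φ : S →ₗ[k] k) (hφ : ∀ a, (∀ b, φ (a * b) = 0) → a = 0)

include hφ in
theorem frob_repr (ψ : S →ₗ[k] k) : ∃ q : S, ∀ x, ψ x = φ (q * x) := by
  set T : S →ₗ[k] Module.Dual k S := (LinearMap.mul k S).compr₂ φ with hT
  have hTa : ∀ a b, T a b = φ (a * b) := fun a b => rfl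
  have hinj : Function.Injective T := by
    rw [← LinearMap.ker_eq_bot, LinearMap.ker_eq_bot']
    intro a ha
    apply hφ
    intro b
    rw [← hTa, ha]
    rfl
  have hsurj : Function.Surjective T :=
    (LinearMap.injective_iff_surjective_of_finrank_eq_finrank
      (Subspace.dual_finrank_eq (K := k) (V := S)).symm).1 hinj
  obtain ⟨q, hq⟩ := hsurj ψ
  exact ⟨q, fun x => by rw [← hTa, hq]⟩

include hφ in
theorem frob_injective : Module.Injective S S := by
  apply Module.Baer.injective
  intro I g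
  set g' : (I.restrictScalars k) →ₗ[k] k :=
    { toFun := fun x => φ (g ⟨x.1, x.2⟩)
      map_add' := fun x y => by
        rw [← map_add, ← map_add]
        rfl
      map_smul' := fun t x => by
        have h1 : g ⟨(t • x).1, (t • x).2⟩ = t • g ⟨x.1, x.2⟩ := by
          have h2 : (⟨(t • x).1, (t • x).2⟩ : I) = (algebraMap k S t) • (⟨x.1, x.2⟩ : I) := by
            apply Subtype.ext
            change t • x.1 = (algebraMap k S t) • x.1
            rw [algebraMap_smul]
          rw [h2, map_smul, algebraMap_smul]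
        rw [h1, map_smul]
        rfl } with hg'
  obtain ⟨ψ, hψ⟩ := g'.exists_extend
  obtain ⟨q, hq⟩ := frob_repr φ hφ ψ
  have hψ' : ∀ (x : S) (hx : x ∈ I), ψ x = φ (g ⟨x, hx⟩) := fun x hx =>
    congrArg (fun t => t ⟨x, hx⟩) hψ
  refine ⟨q • LinearMap.id, fun x hx => ?_⟩
  rw [LinearMap.smul_apply, LinearMap.id_apply, smul_eq_mul]
  rw [← sub_eq_zero]
  apply hφ
  intro b
  have h1 : g ⟨x, hx⟩ * b = g ⟨b * x, I.mul_mem_left b hx⟩ := by
    have h2 : (⟨b * x, I.mul_mem_left b hx⟩ : I) = b • (⟨x, hx⟩ : I) := rfl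
    rw [h2, map_smul, smul_eq_mul, mul_comm]
  rw [sub_mul, map_sub, h1, ← hψ', hq, mul_comm b x, mul_assoc, sub_self]

include hφ in
theorem frob_double (J : Ideal S) (x : S) (h : ∀ y, (∀ z ∈ J, y * z = 0) → x * y = 0) :
    x ∈ J := by
  have h1 := (Subspace.forall_mem_dualAnnihilator_apply_eq_zero_iff (J.restrictScalars k) x).1
  apply h1
  intro ψ hψ
  rw [Submodule.mem_dualAnnihilator] at hψ
  obtain ⟨q, hq⟩ := frob_repr φ hφ ψ
  rw [hq]
  rw [mul_comm q x, h q, map_zero]
  intro z hz
  apply hφ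
  intro b
  rw [mul_assoc, ← hq]
  exact hψ _ (J.mul_mem_right b hz)

end frob

section art

variable {S : Type} [CommRing S]

theorem grade_eq_zero [Nontrivial S] (a : Ideal S) (ha : ∀ r ∈ a, IsNilpotent r) :
    grade a = 0 := by
  apply le_antisymm _ zero_le
  unfold grade
  refine iSup₂_le ?_
  rintro rs ⟨hrs, hreg⟩
  cases rs with
  | nil => simp
  | cons r rs =>
    exfalso
    have h1 := ((RingTheory.Sequence.isRegular_cons_iff S r rs).1 hreg).1
    obtain ⟨n, hn⟩ := ha r (hrs r List.mem_cons_self)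
    have h2 := h1.pow n
    rw [hn] at h2
    have h3 : (0 : S) • (1 : S) = (0 : S) • (0 : S) := by rw [zero_smul, zero_smul]
    exact one_ne_zero (h2 h3)

theorem cm_of_artinian [IsLocalRing S] [IsArtinianRing S] : IsCMLocal S := by
  refine ⟨inferInstance, inferInstance, ?_⟩
  rw [grade_eq_zero]
  · have : Ring.KrullDimLE 0 S := inferInstance
    rw [ringKrullDimZero_iff_ringKrullDim_eq_zero.1 this]
    rfl
  · intro r hr
    have h1 := IsArtinianRing.isNilpotent_jacobson_bot (R := S)
    obtain ⟨n, hn⟩ := h1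
    refine ⟨n, ?_⟩
    have h2 : r ∈ Ideal.jacobson (⊥ : Ideal S) := by
      rw [IsLocalRing.jacobson_eq_maximalIdeal ⊥ bot_ne_top]
      exact hr
    have h3 := Ideal.pow_mem_pow h2 n
    rw [hn] at h3
    exact h3

theorem gor_of_injective [IsNoetherianRing S] [IsLocalRing S] (h : Module.Injective S S) :
    IsGorensteinLocal S := by
  refine ⟨inferInstance, inferInstance, 0, ?_⟩
  have h1 : Injective (ModuleCat.of S S) := Module.injective_object_of_injective_module S S
  exact injective_iff_hasInjectiveDimensionLT_one.1 h1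

theorem gorPerfect_bot [IsNoetherianRing S] [IsLocalRing S] (h : Module.Injective S S) :
    IsGorensteinPerfect (⊥ : Ideal S) := by
  have hg : grade (⊥ : Ideal S) = 0 := grade_eq_zero _ (fun r hr => by
    rw [Ideal.mem_bot] at hr
    rw [hr]
    exact IsNilpotent.zero)
  have hnt : Nontrivial (S ⧸ (⊥ : Ideal S)) := Ideal.Quotient.nontrivial_iff.2 bot_ne_top
  have e : (S ⧸ (⊥ : Ideal S)) ≃ₗ[S] S := Submodule.quotEquivOfEqBot ⊥ rfl
  have hloc : IsLocalRing (S ⧸ (⊥ : Ideal S)) :=
    IsLocalRing.of_surjective' (Ideal.Quotient.mk ⊥) Ideal.Quotient.mk_surjective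
  refine ⟨?_, by rw [hg]; simp, ?_⟩
  · rw [hg]
    change projectiveDimension _ = 0
    rw [projectiveDimension_eq_zero_iff]
    constructor
    · have : Module.Projective S (S ⧸ (⊥ : Ideal S)) := Module.Projective.of_equiv e.symm
      infer_instance
    · rw [ModuleCat.isZero_iff_subsingleton]
      exact not_subsingleton_iff_nontrivial.2 hnt
  · have h1 : Module.Injective (S ⧸ (⊥ : Ideal S)) (S ⧸ (⊥ : Ideal S)) :=
      Module.Injective.of_ringEquiv (RingEquiv.quotientBot S).symm
        ((RingEquiv.quotientBot S).symm.toSemilinearEquiv)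
    exact gor_of_injective h1

end art

end Pool.Agent.T2H43.LK
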