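import Pool.Agent.T2H43.LK.Res

set_option autoImplicit false

/-!
# The horseshoe lemma for truncated resolutions
-/

namespace Pool.Agent.T2H43.LK

variable {S : Type} [CommRing S]

/-- splitting coordinates -/
noncomputable def spl (S : Type) [CommRing S] (a b : ℕ) :
    (Fin (a + b) → S) ≃ₗ[S] (Fin a → S) × (Fin b → S) :=
  (LinearEquiv.funCongrLeft S S finSumFinEquiv).trans
    (LinearEquiv.sumArrowLequivProdArrow (Fin a) (Fin b) S S)

theorem horseshoe : ∀ (n : ℕ) (x y : ℕ → ℕ) (X Z Y : Type) [AddCommGroup X] [Module S X]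
    [AddCommGroup Z] [Module S Z] [AddCommGroup Y] [Module S Y] (i : X →ₗ[S] Z) (p : Z →ₗ[S] Y),
    Function.Injective i → Function.Surjective p → LinearMap.range i = LinearMap.ker p →
    HasRes S n x X → HasRes S n y Y → HasRes S n (fun j => x j + y j) Z := by
  intro n
  induction n with
  | zero => intros; trivial
  | succ n ih =>
    intro x y X Z Y _ _ _ _ _ _ i p hi hp hip hX hY
    obtain ⟨f, hf, hf'⟩ := hX
    obtain ⟨g, hg, hg'⟩ := hY
    obtain ⟨g', hg1⟩ := Module.projective_lifting_property p g hp
    have hpi : ∀ a, p (i a) = 0 := fun a => by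
      have : i a ∈ LinearMap.ker p := by rw [← hip]; exact ⟨a, rfl⟩
      exact this
    have hg2 : ∀ v, p (g' v) = g v := fun v => congrArg (fun t => t v) hg1
    set E := spl S (x 0) (y 0) with hE
    set H : (Fin (x 0) → S) × (Fin (y 0) → S) →ₗ[S] Z := (i.comp f).coprod g' with hH
    have hHs : ∀ a b, H (a, b) = i (f a) + g' b := fun a b => by
      rw [hH, LinearMap.coprod_apply]; rfl
    set F : (Fin (x 0 + y 0) → S) →ₗ[S] Z := H.comp E.toLinearMap with hF
    have hFa : ∀ u, F u = i (f (E u).1) + g' (E u).2 := fun u => by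
      rw [← hHs]; rfl
    have hpF : ∀ u, p (F u) = g (E u).2 := fun u => by
      rw [hFa, map_add, hpi, zero_add, hg2]
    refine ⟨F, ?_, ?_⟩
    · intro z
      obtain ⟨b, hb⟩ := hg (p z)
      have h1 : z - g' b ∈ LinearMap.ker p := by
        rw [LinearMap.mem_ker, map_sub, hg2, hb, sub_self]
      rw [← hip] at h1
      obtain ⟨w, hw⟩ := h1
      obtain ⟨a, rfl⟩ := hf w
      refine ⟨E.symm (a, b), ?_⟩
      rw [hFa, LinearEquiv.apply_symm_apply]
      change i (f a) + g' b = z
      rw [hw, sub_add_cancel]
    · -- maps between the kernels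
      set i1 : (Fin (x 0) → S) →ₗ[S] (Fin (x 0 + y 0) → S) :=
        E.symm.toLinearMap.comp (LinearMap.inl S _ _) with hi1
      have hEi : ∀ a, E (i1 a) = (a, 0) := fun a => by
        rw [hi1]; exact LinearEquiv.apply_symm_apply _ _
      set i' : LinearMap.ker f →ₗ[S] LinearMap.ker F :=
        LinearMap.restrict i1 (fun a ha => by
          rw [LinearMap.mem_ker, hFa, hEi]
          rw [LinearMap.mem_ker] at ha
          change i (f a) + g' 0 = 0
          rw [ha, map_zero, map_zero, add_zero]) with hi'
      set p1 : (Fin (x 0 + y 0) → S) →ₗ[S] (Fin (y 0) → S) :=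
        (LinearMap.snd S _ _).comp E.toLinearMap with hp1
      have hp1a : ∀ u, p1 u = (E u).2 := fun u => rfl
      set p' : LinearMap.ker F →ₗ[S] LinearMap.ker g :=
        LinearMap.restrict p1 (fun u hu => by
          rw [LinearMap.mem_ker] at hu ⊢
          rw [hp1a, ← hpF, hu, map_zero]) with hp'
      refine ih (fun j => x (j + 1)) (fun j => y (j + 1)) _ _ _ i' p' ?_ ?_ ?_ hf' hg'
      · intro a b hab
        have h1 : i1 a.1 = i1 b.1 := congrArg Subtype.val hab
        have h2 := congrArg (fun t => (E t).1) h1
        simp only [hEi] at h2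
        exact Subtype.ext h2
      · intro b
        have hb : g b.1 = 0 := b.2
        have h1 : g' b.1 ∈ LinearMap.ker p := by rw [LinearMap.mem_ker, hg2, hb]
        rw [← hip] at h1
        obtain ⟨w, hw⟩ := h1
        obtain ⟨a, rfl⟩ := hf w
        refine ⟨⟨E.symm (-a, b.1), ?_⟩, ?_⟩
        · rw [LinearMap.mem_ker, hFa, LinearEquiv.apply_symm_apply]
          change i (f (-a)) + g' b.1 = 0
          rw [map_neg, map_neg, hw, neg_add_cancel]
        · apply Subtype.ext
          change p1 (E.symm (-a, b.1)) = b.1
          rw [hp1a, LinearEquiv.apply_symm_apply]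
      · apply le_antisymm
        · rintro _ ⟨a, rfl⟩
          rw [LinearMap.mem_ker]
          apply Subtype.ext
          change p1 (i1 a.1) = 0
          rw [hp1a, hEi]
        · intro u hu
          rw [LinearMap.mem_ker] at hu
          have h1 : (E u.1).2 = 0 := congrArg Subtype.val hu
          have h2 : F u.1 = 0 := u.2
          rw [hFa, h1, map_zero, add_zero] at h2
          have h3 : f (E u.1).1 = 0 := hi (by rw [h2, map_zero])
          refine ⟨⟨(E u.1).1, h3⟩, ?_⟩
          apply Subtype.ext
          change i1 (E u.1).1 = u.1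
          apply E.injective
          rw [hEi]
          exact Prod.ext rfl h1.symm

/-- partial sums -/
def psum (m : ℕ → ℕ) : ℕ → ℕ
  | 0 => m 0
  | j + 1 => m (j + 1) + psum m j

/-- If `0 → N → M → N → 0` is exact, a resolution of `M` gives one of `N`. -/
theorem selfext {M N : Type} [AddCommGroup M] [Module S M] [AddCommGroup N] [Module S N]
    (i : N →ₗ[S] M) (p : M →ₗ[S] N) (hi : Function.Injective i) (hp : Function.Surjective p)
    (hip : LinearMap.range i = LinearMap.ker p) (m : ℕ → ℕ) (hM : ∀ n, HasRes S n m M) (n : ℕ) :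
    HasRes S n (psum m) N := by
  induction n with
  | zero => trivial
  | succ n ih =>
    obtain ⟨f, hf, hf'⟩ := hM (n + 1)
    have hpi : ∀ a, p (i a) = 0 := fun a => by
      have : i a ∈ LinearMap.ker p := by rw [← hip]; exact ⟨a, rfl⟩
      exact this
    change ∃ g : (Fin (m 0) → S) →ₗ[S] N, Function.Surjective g ∧
      HasRes S n (fun j => m (j + 1) + psum m j) (LinearMap.ker g)
    refine ⟨p.comp f, hp.comp hf, ?_⟩
    -- the map from the kernel
    have hmem : ∀ u : LinearMap.ker (p.comp f), f u.1 ∈ LinearMap.range i := fun u => by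
      rw [hip]; exact u.2
    set e := LinearEquiv.ofInjective i hi with he
    set q : LinearMap.ker (p.comp f) →ₗ[S] N :=
      e.symm.toLinearMap.comp (LinearMap.codRestrict (LinearMap.range i)
        (f.comp (LinearMap.ker (p.comp f)).subtype) hmem) with hq
    have hiq : ∀ u, i (q u) = f u.1 := fun u => by
      have h1 : (e (q u)).1 = f u.1 := by
        rw [hq, LinearMap.comp_apply]
        exact congrArg Subtype.val (e.apply_symm_apply _)
      rw [← h1]
      rfl
    have hle : LinearMap.ker f ≤ LinearMap.ker (p.comp f) := fun a ha => by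
      rw [LinearMap.mem_ker] at ha
      rw [LinearMap.mem_ker, LinearMap.comp_apply, ha, map_zero]
    refine horseshoe n (fun j => m (j + 1)) (psum m) (↥(LinearMap.ker f))
      (↥(LinearMap.ker (p.comp f))) N (Submodule.inclusion hle) q
      (Submodule.inclusion_injective hle) ?_ ?_ hf' ih
    · intro y
      obtain ⟨u, hu⟩ := hf (i y)
      refine ⟨⟨u, ?_⟩, ?_⟩
      · rw [LinearMap.mem_ker, LinearMap.comp_apply, hu, hpi]
      · apply hi
        rw [hiq, hu]
    · apply le_antisymm
      · rintro _ ⟨a, rfl⟩
        rw [LinearMap.mem_ker]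
        apply hi
        rw [hiq, map_zero]
        exact a.2
      · intro u hu
        rw [LinearMap.mem_ker] at hu
        have h1 := hiq u
        rw [hu, map_zero] at h1
        exact ⟨⟨u.1, h1.symm⟩, rfl⟩

theorem HasRes.equiv : ∀ (n : ℕ) (r : ℕ → ℕ) (M M' : Type) [AddCommGroup M] [Module S M]
    [AddCommGroup M'] [Module S M'] (_ : M ≃ₗ[S] M'), HasRes S n r M → HasRes S n r M' := by
  intro n
  cases n with
  | zero => intros; trivial
  | succ n =>
    intro r M M' _ _ _ _ e h
    obtain ⟨f, hf, hf'⟩ := h
    refine ⟨e.toLinearMap.comp f, e.surjective.comp hf, ?_⟩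
    have h1 : LinearMap.ker (e.toLinearMap.comp f) = LinearMap.ker f := by
      apply le_antisymm
      · intro x hx
        rw [LinearMap.mem_ker] at hx ⊢
        exact e.injective (by rw [map_zero]; exact hx)
      · intro x hx
        rw [LinearMap.mem_ker] at hx ⊢
        rw [LinearMap.comp_apply, hx, map_zero]
    rw [h1]
    exact hf'

/-- a chain of surjections and kernels inside free modules of rank `a` -/
theorem HasRes.chain {a : ℕ} (d : ℕ → ((Fin a → S) →ₗ[S] (Fin a → S)))
    (hd : ∀ i, LinearMap.ker (d i) = LinearMap.range (d (i + 1))) (n : ℕ) :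
    ∀ i, HasRes S n (fun _ => a) (LinearMap.range (d i)) := by
  induction n with
  | zero => intros; trivial
  | succ n ih =>
    intro i
    refine ⟨(d i).rangeRestrict, (d i).surjective_rangeRestrict, ?_⟩
    rw [LinearMap.ker_rangeRestrict, hd]
    exact ih (i + 1)

/-- free modules -/
theorem HasRes.free (a : ℕ) (n : ℕ) :
    HasRes S n (fun i => if i = 0 then a else 0) (Fin a → S) := by
  cases n with
  | zero => trivial
  | succ n =>
    refine ⟨LinearMap.id, Function.surjective_id, ?_⟩
    change HasRes S n (fun _ => 0) _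
    rw [LinearMap.ker_id]
    have : ∀ (n : ℕ) (M : Type) [AddCommGroup M] [Module S M] [Subsingleton M],
        HasRes S n (fun _ => 0) M := by
      intro n
      induction n with
      | zero => intros; trivial
      | succ n ih =>
        intro M _ _ _
        refine ⟨0, fun x => ⟨0, Subsingleton.elim _ _⟩, ?_⟩
        exact ih _
    exact this n _

end Pool.Agent.T2H43.LK
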