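import Pool.Agent.T2H43.LK.Defs

set_option autoImplicit false

open Filter Topology

/-!
# Growth of sequences
-/

namespace Pool.Agent.T2H43.LK

theorem toE_le {β : ℕ∞} {m : ℕ} (h : β ≤ (m : ℕ∞)) :
    (β : ENNReal) ≤ ENNReal.ofReal (m : ℝ) := by
  rw [ENNReal.ofReal_natCast]
  exact_mod_cast h

theorem le_toE {β : ℕ∞} {n : ℕ} (h : ((3 * 2 ^ n : ℕ) : ℕ∞) ≤ 4 * β) :
    ENNReal.ofReal (3 / 4 * 2 ^ n) ≤ (β : ENNReal) := by
  have h1 : (((3 * 2 ^ n : ℕ) : ℕ∞) : ENNReal) ≤ ((4 * β : ℕ∞) : ENNReal) := by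
    exact_mod_cast h
  have h2 : (((3 * 2 ^ n : ℕ) : ℕ∞) : ENNReal) = 4 * ENNReal.ofReal (3 / 4 * 2 ^ n) := by
    have h4 : (4 : ENNReal) = ENNReal.ofReal 4 := by norm_num
    rw [h4, ← ENNReal.ofReal_mul (by norm_num)]
    have h5 : (4 : ℝ) * (3 / 4 * 2 ^ n) = ((3 * 2 ^ n : ℕ) : ℝ) := by push_cast; ring
    rw [h5, ENNReal.ofReal_natCast]
    simp
  rw [h2] at h1
  have h3 : ((4 * β : ℕ∞) : ENNReal) = 4 * (β : ENNReal) := by
    simp
  rw [h3] at h1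
  exact (ENNReal.mul_le_mul_iff_right (by norm_num) (by norm_num)).1 h1

theorem growthLe_three {β : ℕ → ℕ∞} (h : ∀ n : ℕ, β n ≤ (((n + 1) * (n + 3) : ℕ) : ℕ∞)) :
    GrowthLe β 3 := by
  refine ⟨8, by norm_num, fun n hn => ?_⟩
  refine (toE_le (h n)).trans (ENNReal.ofReal_le_ofReal ?_)
  have h1 : (((3 : NNReal) : ℝ) - 1) = ((2 : ℕ) : ℝ) := by norm_num
  rw [h1, Real.rpow_natCast]
  have h2 : (1 : ℝ) ≤ n := by exact_mod_cast hn
  push_cast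
  nlinarith

theorem not_growthLe {β : ℕ → ℕ∞} (h : ∀ n : ℕ, ((3 * 2 ^ n : ℕ) : ℕ∞) ≤ 4 * β n)
    (d : NNReal) : ¬ GrowthLe β d := by
  rintro ⟨c, hc, hg⟩
  obtain ⟨k, hk⟩ := exists_nat_ge ((d : ℝ) - 1)
  have h1 : ∀ n : ℕ, 1 ≤ n → 3 / 4 * (2 : ℝ) ^ n ≤ c * (n : ℝ) ^ k := by
    intro n hn
    have h2 := (le_toE (h n)).trans (hg n hn)
    have hn' : (1 : ℝ) ≤ n := by exact_mod_cast hn
    have hpos : 0 < c * (n : ℝ) ^ ((d : ℝ) - 1) :=
      mul_pos hc (Real.rpow_pos_of_pos (by linarith) _)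
    rw [ENNReal.ofReal_le_ofReal_iff hpos.le] at h2
    refine h2.trans (mul_le_mul_of_nonneg_left ?_ hc.le)
    rw [← Real.rpow_natCast]
    exact Real.rpow_le_rpow_of_exponent_le hn' hk
  have h3 := tendsto_pow_const_div_const_pow_of_one_lt k (r := (2 : ℝ)) (by norm_num)
  have h4 : ∀ᶠ n : ℕ in atTop, (n : ℝ) ^ k / 2 ^ n < 3 / 4 / c :=
    h3.eventually (gt_mem_nhds (by positivity))
  obtain ⟨n, hn1, hn2⟩ := (h4.and (eventually_ge_atTop 1)).exists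
  have h5 := h1 n hn2
  have h6 : (0 : ℝ) < 2 ^ n := by positivity
  rw [div_lt_div_iff₀ h6 hc] at hn1
  linarith

theorem tendsto_root : Tendsto (fun n : ℕ => (8 * (n : ℝ) ^ 2) ^ (1 / (n : ℝ))) atTop (𝓝 1) := by
  have h1 : Tendsto (fun x : ℝ => x ^ (1 / x)) atTop (𝓝 1) := tendsto_rpow_div
  have h2 : Tendsto (fun x : ℝ => (8 : ℝ) ^ (1 / x)) atTop (𝓝 1) := by
    have h3 : Tendsto (fun x : ℝ => 1 / x) atTop (𝓝 0) := by
      simpa using tendsto_inv_atTop_zero (𝕜 := ℝ)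
    have h4 := (tendsto_const_nhds (x := (8 : ℝ))).rpow h3 (Or.inl (by norm_num))
    simpa using h4
  have h5 : Tendsto (fun x : ℝ => (8 : ℝ) ^ (1 / x) * (x ^ (1 / x)) ^ 2) atTop (𝓝 1) := by
    simpa using h2.mul (h1.pow 2)
  have h6 := h5.comp tendsto_natCast_atTop_atTop
  refine h6.congr (fun n => ?_)
  simp only [Function.comp]
  rw [Real.mul_rpow (by norm_num) (by positivity), ← Real.rpow_natCast, ← Real.rpow_natCast,
    ← Real.rpow_mul (by positivity), ← Real.rpow_mul (by positivity), mul_comm (1 / (n : ℝ))]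

theorem tendsto_root2 : Tendsto (fun n : ℕ => (3 / 4 * (2 : ℝ) ^ n) ^ (1 / (n : ℝ))) atTop
    (𝓝 2) := by
  have h3 : Tendsto (fun x : ℝ => 1 / x) atTop (𝓝 0) := by
    simpa using tendsto_inv_atTop_zero (𝕜 := ℝ)
  have h4 := (tendsto_const_nhds (x := (3 / 4 : ℝ))).rpow h3 (Or.inl (by norm_num))
  rw [Real.rpow_zero] at h4
  have h5 : Tendsto (fun n : ℕ => (3 / 4 : ℝ) ^ (1 / (n : ℝ)) * 2) atTop (𝓝 (1 * 2)) :=
    (h4.comp tendsto_natCast_atTop_atTop).mul_const 2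
  rw [one_mul] at h5
  refine h5.congr' ?_
  filter_upwards [eventually_ge_atTop 1] with n hn
  have hn' : (n : ℝ) ≠ 0 := by
    have : (1 : ℝ) ≤ n := by exact_mod_cast hn
    linarith
  rw [Real.mul_rpow (by norm_num) (by positivity), ← Real.rpow_natCast 2 n,
    ← Real.rpow_mul (by norm_num), mul_one_div_cancel hn', Real.rpow_one]

theorem limsup_le_one {β : ℕ → ℕ∞} (h : ∀ n : ℕ, β n ≤ (((n + 1) * (n + 3) : ℕ) : ℕ∞)) :
    limsup (fun n : ℕ => ((β n : ℕ∞) : ENNReal) ^ (1 / (n : ℝ))) atTop ≤ 1 := by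
  have h1 : Tendsto (fun n : ℕ => ENNReal.ofReal ((8 * (n : ℝ) ^ 2) ^ (1 / (n : ℝ)))) atTop
      (𝓝 1) := by
    have := ENNReal.tendsto_ofReal tendsto_root
    rwa [ENNReal.ofReal_one] at this
  rw [← h1.limsup_eq]
  refine limsup_le_limsup ?_
  filter_upwards [eventually_ge_atTop 1] with n hn
  have h2 : (1 : ℝ) ≤ n := by exact_mod_cast hn
  have h3 : ((β n : ℕ∞) : ENNReal) ≤ ENNReal.ofReal (8 * (n : ℝ) ^ 2) := by
    refine (toE_le (h n)).trans (ENNReal.ofReal_le_ofReal ?_)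
    push_cast
    nlinarith
  rw [← ENNReal.ofReal_rpow_of_nonneg (by positivity) (by positivity)]
  exact ENNReal.rpow_le_rpow h3 (by positivity)

theorem two_le_limsup {β : ℕ → ℕ∞} (h : ∀ n : ℕ, ((3 * 2 ^ n : ℕ) : ℕ∞) ≤ 4 * β n) :
    2 ≤ limsup (fun n : ℕ => ((β n : ℕ∞) : ENNReal) ^ (1 / (n : ℝ))) atTop := by
  have h1 : Tendsto (fun n : ℕ => ENNReal.ofReal ((3 / 4 * (2 : ℝ) ^ n) ^ (1 / (n : ℝ)))) atTop
      (𝓝 2) := by
    have := ENNReal.tendsto_ofReal tendsto_root2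
    rwa [ENNReal.ofReal_ofNat] at this
  rw [← h1.limsup_eq]
  refine limsup_le_limsup (Eventually.of_forall (fun n => ?_))
  beta_reduce
  rw [← ENNReal.ofReal_rpow_of_nonneg (by positivity) (by positivity)]
  exact ENNReal.rpow_le_rpow (le_toE (h n)) (by positivity)

end Pool.Agent.T2H43.LK
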