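import Pool.Agent.T2H43.LK.Mat
import Pool.Agent.T2H43.LK.Horse

set_option autoImplicit false

/-!
# Exponential growth
-/

namespace Pool.Agent.T2H43.LK

namespace RR

/-- the augmentation -/
def aug : RR →+* ℚ where
  toFun := ra
  map_one' := rfl
  map_mul' _ _ := rfl
  map_zero' := rfl
  map_add' _ _ := rfl

theorem mul_mem2 {x y : RR} (hx : ra x = 0) (hy : ra y = 0) :
    ra (x * y) = 0 ∧ ∀ i, rv (x * y) i = 0 := by
  constructor
  · simp [hx]
  · intro i
    simp [hx, hy]

theorem nilp {x : RR} (hx : ra x = 0) : x ^ 4 = 0 := by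
  have h2 := mul_mem2 hx hx
  have h4 : x ^ 4 = (x * x) * (x * x) := by ring
  rw [h4]
  generalize x * x = y at h2
  obtain ⟨ha, hv⟩ := h2
  apply ext'
  · simp [ha]
  · intro i; simp [ha]
  · intro i
    have : rv y = 0 := funext hv
    fin_cases i <;> simp [ha, B, hv]
  · simp [ha, hv]

theorem isUnit_iff (x : RR) : IsUnit x ↔ ra x ≠ 0 := by
  constructor
  · intro h
    exact (h.map aug).ne_zero
  · intro h
    have h1 : IsUnit (algebraMap ℚ RR (ra x)) := (isUnit_iff_ne_zero.2 h).map _
    have h2 : IsNilpotent (x - algebraMap ℚ RR (ra x)) := by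
      refine ⟨4, nilp ?_⟩
      rw [ra_sub, Algebra.algebraMap_eq_smul_one, ra_smul, ra_one, mul_one, sub_self]
    have h3 := IsNilpotent.isUnit_add_left_of_commute h2 h1 (Commute.all _ _)
    rwa [add_sub_cancel] at h3

instance : Nontrivial RR := ⟨⟨0, 1, fun h => by
  have := congrArg ra h
  simp at this⟩⟩

instance : IsLocalRing RR := by
  refine IsLocalRing.of_nonunits_add ?_
  intro a b ha hb
  rw [mem_nonunits_iff, isUnit_iff, not_not] at ha hb ⊢
  rw [ra_add, ha, hb, add_zero]

theorem mem_max (x : RR) : x ∈ IsLocalRing.maximalIdeal RR ↔ ra x = 0 := by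
  rw [IsLocalRing.mem_maximalIdeal, mem_nonunits_iff, isUnit_iff, not_not]

instance : IsNoetherianRing RR := IsNoetherianRing.of_finite ℚ RR

theorem finrank_RR : Module.finrank ℚ RR = 14 := by
  change Module.finrank ℚ (ℚ × (Fin 6 → ℚ) × (Fin 6 → ℚ) × ℚ) = 14
  simp

theorem finrank_pi (m : ℕ) : Module.finrank ℚ (Fin m → RR) = m * 14 := by
  rw [Module.finrank_pi_fintype]
  simp [finrank_RR]

/-- the subspace of vectors with entries in the square of the maximal ideal -/
def F2 (h : ℕ) : Submodule ℚ (Fin h → RR) where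
  carrier := {x | ∀ j, ra (x j) = 0 ∧ ∀ i, rv (x j) i = 0}
  add_mem' {x y} hx hy j := by
    refine ⟨?_, fun i => ?_⟩
    · rw [Pi.add_apply, ra_add, (hx j).1, (hy j).1, add_zero]
    · rw [Pi.add_apply, rv_add, (hx j).2, (hy j).2, add_zero]
  zero_mem' j := ⟨rfl, fun _ => rfl⟩
  smul_mem' t x hx j := by
    refine ⟨?_, fun i => ?_⟩
    · rw [Pi.smul_apply, ra_smul, (hx j).1, mul_zero]
    · rw [Pi.smul_apply, rv_smul, (hx j).2, mul_zero]

theorem finrank_F2 (h : ℕ) : Module.finrank ℚ (F2 h) ≤ h * 7 := by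
  let f : F2 h →ₗ[ℚ] (Fin h → (Fin 6 → ℚ) × ℚ) :=
    { toFun := fun x j => (rw' (x.1 j), rc (x.1 j))
      map_add' := fun x y => rfl
      map_smul' := fun t x => rfl }
  have hf : Function.Injective f := by
    intro x y hxy
    apply Subtype.ext
    funext j
    have h1 := congrFun hxy j
    have h2 : rw' (x.1 j) = rw' (y.1 j) := congrArg Prod.fst h1
    have h3 : rc (x.1 j) = rc (y.1 j) := congrArg Prod.snd h1
    apply ext'
    · rw [(x.2 j).1, (y.2 j).1]
    · intro i
      rw [(x.2 j).2, (y.2 j).2]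
    · intro i
      rw [h2]
    · exact h3
  have h1 := LinearMap.finrank_le_finrank_of_injective hf
  rw [Module.finrank_pi_fintype] at h1
  simpa using h1

theorem range_le {m h : ℕ} (f : (Fin m → RR) →ₗ[RR] (Fin h → RR))
    (hf : ∀ x j, ra (f x j) = 0) :
    Module.finrank ℚ (LinearMap.range (f.restrictScalars ℚ)) ≤ m + h * 7 := by
  have hle : LinearMap.range (f.restrictScalars ℚ) ≤
      Submodule.span ℚ (Set.range (fun j : Fin m => f (Pi.single j 1))) ⊔ F2 h := by
    rintro _ ⟨x, rfl⟩
    rw [LinearMap.restrictScalars_apply, lin_eq_sum f x]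
    apply Submodule.sum_mem
    intro j _
    have h1 : x j • f (Pi.single j 1) = ra (x j) • f (Pi.single j 1) +
        (x j - algebraMap ℚ RR (ra (x j))) • f (Pi.single j 1) := by
      rw [sub_smul, algebraMap_smul, add_sub_cancel]
    rw [h1]
    apply Submodule.add_mem_sup
    · exact Submodule.smul_mem _ _ (Submodule.subset_span ⟨j, rfl⟩)
    · intro i
      exact mul_mem2 (by
        rw [ra_sub, Algebra.algebraMap_eq_smul_one, ra_smul, ra_one, mul_one, sub_self])
        (hf _ i)
  refine (Submodule.finrank_mono hle).trans ?_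
  refine (Submodule.finrank_add_le_finrank_add_finrank _ _).trans ?_
  refine Nat.add_le_add ?_ (finrank_F2 h)
  refine (finrank_range_le_card _).trans ?_
  simp

section growth

variable {M : Type} [AddCommGroup M] [Module RR M]

theorem growth_step (P : FR RR M) (hP : P.IsMin) (n : ℕ) :
    P.h (n + 1) * 14 ≤ (P.h (n + 1) + P.h n * 7) + (P.h (n + 2) + P.h (n + 1) * 7) := by
  have h1 : ∀ i x j, ra (P.D i x j) = 0 := by
    intro i x j
    rw [← mem_max]
    cases i with
    | zero => exact hP.1 _ (by rw [← P.hker]; exact ⟨x, rfl⟩) j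
    | succ i => exact hP.2 i _ (by rw [← P.hex i]; exact ⟨x, rfl⟩) j
  have h2 := LinearMap.finrank_range_add_finrank_ker ((P.D n).restrictScalars ℚ)
  rw [finrank_pi] at h2
  have h3 : LinearMap.ker ((P.D n).restrictScalars ℚ) =
      LinearMap.range ((P.D (n + 1)).restrictScalars ℚ) := by
    ext x
    have h4 : x ∈ LinearMap.ker (P.D n) ↔ x ∈ LinearMap.range (P.D (n + 1)) := by
      rw [P.hex n]
    exact h4
  rw [h3] at h2
  rw [← h2]
  exact Nat.add_le_add (range_le _ (h1 n)) (range_le _ (h1 (n + 1)))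

variable [Module ℚ M] [IsScalarTower ℚ RR M]

theorem growth_zero (P : FR RR M) (hP : P.IsMin) [Module.Finite ℚ M] :
    P.h 0 * 14 ≤ Module.finrank ℚ M + (P.h 1 + P.h 0 * 7) := by
  have h1 : ∀ x j, ra (P.D 0 x j) = 0 := by
    intro x j
    rw [← mem_max]
    exact hP.1 _ (by rw [← P.hker]; exact ⟨x, rfl⟩) j
  have h2 := LinearMap.finrank_range_add_finrank_ker (P.π.restrictScalars ℚ)
  rw [finrank_pi] at h2
  have h3 : LinearMap.ker (P.π.restrictScalars ℚ) =
      LinearMap.range ((P.D 0).restrictScalars ℚ) := by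
    ext x
    have h4 : x ∈ LinearMap.ker P.π ↔ x ∈ LinearMap.range (P.D 0) := by
      rw [P.hker]
    exact h4
  rw [h3] at h2
  rw [← h2]
  exact Nat.add_le_add (Submodule.finrank_le _) (range_le _ h1)

theorem growth_gen (P : FR RR M) {d : ℕ} (l : M →ₗ[ℚ] (Fin d → ℚ)) (hl : Function.Surjective l)
    (hlm : ∀ (a : RR) (x : M), ra a = 0 → l (a • x) = 0) : d ≤ P.h 0 := by
  have h1 : (⊤ : Submodule ℚ (Fin d → ℚ)) ≤
      Submodule.span ℚ (Set.range (fun j : Fin (P.h 0) => l (P.π (Pi.single j 1)))) := by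
    intro y _
    obtain ⟨m, rfl⟩ := hl y
    obtain ⟨x, rfl⟩ := P.hπ m
    rw [lin_eq_sum P.π x, map_sum]
    apply Submodule.sum_mem
    intro j _
    have h1 : x j • P.π (Pi.single j 1) = ra (x j) • P.π (Pi.single j 1) +
        (x j - algebraMap ℚ RR (ra (x j))) • P.π (Pi.single j 1) := by
      rw [sub_smul, algebraMap_smul, add_sub_cancel]
    rw [h1, map_add, hlm _ _ (by
        rw [ra_sub, Algebra.algebraMap_eq_smul_one, ra_smul, ra_one, mul_one, sub_self]), add_zero,
      map_smul]
    exact Submodule.smul_mem _ _ (Submodule.subset_span ⟨j, rfl⟩)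
  have h2 := Submodule.finrank_mono h1
  rw [finrank_top, Module.finrank_fin_fun] at h2
  refine h2.trans ((finrank_range_le_card _).trans ?_)
  simp

/-- Modules of length at most `14` with at least three generators have exponentially growing Betti
numbers. -/
theorem growth [Module.Finite ℚ M] [Module.Finite RR M] (hM : Module.finrank ℚ M ≤ 14)
    (l : M →ₗ[ℚ] (Fin 3 → ℚ)) (hl : Function.Surjective l)
    (hlm : ∀ (a : RR) (x : M), ra a = 0 → l (a • x) = 0) (n : ℕ) :
    ((3 * 2 ^ n : ℕ) : ℕ∞) ≤ betti RR M n := by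
  obtain ⟨P, hP⟩ := exists_min_res RR M
  rw [P.betti_eq hP]
  have h0 := growth_gen P l hl hlm
  have h1 := growth_zero P hP
  have h2 := growth_step P hP
  have h3 : ∀ n, 3 * 2 ^ n ≤ P.h n ∧ 2 * P.h n ≤ P.h (n + 1) := by
    intro n
    induction n with
    | zero =>
      constructor
      · simpa using h0
      · rw [zero_add]
        omega
    | succ n ih =>
      obtain ⟨i1, i2⟩ := ih
      have h4 := h2 n
      have h5 : P.h (n + 1 + 1) = P.h (n + 2) := rfl
      constructor
      · rw [pow_succ]; omega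
      · omega
  exact_mod_cast (h3 n).1

end growth

end RR

end Pool.Agent.T2H43.LK
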