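import Pool.Agent.T2H43.LK.Ring

set_option autoImplicit false

/-!
# The matrices over the ring
-/

namespace Pool.Agent.T2H43.LK

/-- the map `(u, v) ↦ (p u + q v, r u + s v)` -/
def mat {S : Type} [CommRing S] (p q r s : S) : (Fin 2 → S) →ₗ[S] (Fin 2 → S) where
  toFun u := ![p * u 0 + q * u 1, r * u 0 + s * u 1]
  map_add' u v := by
    funext i
    fin_cases i <;> simp <;> ring
  map_smul' t u := by
    funext i
    fin_cases i <;> simp <;> ring

@[simp] theorem mat_zero {S : Type} [CommRing S] (p q r s : S) (u : Fin 2 → S) :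
    mat p q r s u 0 = p * u 0 + q * u 1 := rfl
@[simp] theorem mat_one {S : Type} [CommRing S] (p q r s : S) (u : Fin 2 → S) :
    mat p q r s u 1 = r * u 0 + s * u 1 := rfl

namespace RR

def x1 : RR := mk 0 ![1, 0, 0, 0, 0, 0] 0 0
def x2 : RR := mk 0 ![0, 1, 0, 0, 0, 0] 0 0
def x3 : RR := mk 0 ![0, 0, 1, 0, 0, 0] 0 0
def x4 : RR := mk 0 ![0, 0, 0, 1, 0, 0] 0 0

theorem x1_mul (u : RR) : x1 * u = mk 0 ![ra u, 0, 0, 0, 0, 0]
    ![0, rv u 4, rv u 2, rv u 5, rv u 1, rv u 3] (rw' u 0) := by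
  apply ext'
  · simp [x1]
  · intro i
    fin_cases i <;> simp [x1]
  · intro i
    fin_cases i <;> simp [x1, B]
  · simp [x1, Fin.sum_univ_six]

theorem x2_mul (u : RR) : x2 * u = mk 0 ![0, ra u, 0, 0, 0, 0]
    ![rv u 4, 0, -2 * rv u 2, - rv u 5, rv u 0, - rv u 3] (rw' u 1) := by
  apply ext'
  · simp [x2]
  · intro i
    fin_cases i <;> simp [x2]
  · intro i
    fin_cases i <;> simp [x2, B]
  · simp [x2, Fin.sum_univ_six]

theorem x3_mul (u : RR) : x3 * u = mk 0 ![0, 0, ra u, 0, 0, 0]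
    ![rv u 2, -2 * rv u 2, rv u 0 - 2 * rv u 1, 0, 0, rv u 5] (rw' u 2) := by
  apply ext'
  · simp [x3]
  · intro i
    fin_cases i <;> simp [x3]
  · intro i
    fin_cases i <;> simp [x3, B]
  · simp [x3, Fin.sum_univ_six]

theorem x4_mul (u : RR) : x4 * u = mk 0 ![0, 0, 0, ra u, 0, 0]
    ![rv u 5, - rv u 5, 0, rv u 3, 0, rv u 0 - rv u 1] (rw' u 3) := by
  apply ext'
  · simp [x4]
  · intro i
    fin_cases i <;> simp [x4]
  · intro i
    fin_cases i <;> simp [x4, B]
  · simp [x4, Fin.sum_univ_six]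

/-- the matrices `d_β = [[x1, β x3], [x4, x2]]` -/
noncomputable def dR (β : ℚ) : (Fin 2 → RR) →ₗ[RR] (Fin 2 → RR) := mat x1 (β • x3) x4 x2

theorem dR_zero (β : ℚ) (u : Fin 2 → RR) : dR β u 0 = mk 0
    ![ra (u 0), 0, β * ra (u 1), 0, 0, 0]
    ![β * rv (u 1) 2, rv (u 0) 4 - 2 * (β * rv (u 1) 2),
      rv (u 0) 2 + β * (rv (u 1) 0 - 2 * rv (u 1) 1), rv (u 0) 5, rv (u 0) 1,
      rv (u 0) 3 + β * rv (u 1) 5]
    (rw' (u 0) 0 + β * rw' (u 1) 2) := by
  have h : dR β u 0 = x1 * u 0 + β • (x3 * u 1) := by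
    rw [dR, mat_zero, smul_mul_assoc]
  rw [h, x1_mul, x3_mul]
  apply ext'
  · simp
  · intro i
    fin_cases i <;> simp
  · intro i
    fin_cases i <;> simp
    ring
  · simp

theorem dR_one (β : ℚ) (u : Fin 2 → RR) : dR β u 1 = mk 0
    ![0, ra (u 1), 0, ra (u 0), 0, 0]
    ![rv (u 0) 5 + rv (u 1) 4, - rv (u 0) 5, -2 * rv (u 1) 2, rv (u 0) 3 - rv (u 1) 5,
      rv (u 1) 0, rv (u 0) 0 - rv (u 0) 1 - rv (u 1) 3]
    (rw' (u 0) 3 + rw' (u 1) 1) := by
  have h : dR β u 1 = x4 * u 0 + x2 * u 1 := by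
    rw [dR, mat_one]
  rw [h, x4_mul, x2_mul]
  apply ext'
  · simp
  · intro i
    fin_cases i <;> simp
  · intro i
    fin_cases i <;> simp
    all_goals ring
  · simp

theorem dR_exact (β : ℚ) (h1 : β ≠ -1) (h2 : 2 * β ≠ -1) :
    LinearMap.ker (dR β) = LinearMap.range (dR (2 * β)) := by
  have h1' : 1 + β ≠ 0 := fun h => h1 (by linarith)
  have h2' : 1 + 2 * β ≠ 0 := fun h => h2 (by linarith)
  apply le_antisymm
  · intro u hu
    rw [LinearMap.mem_ker] at hu
    have e0 := congrFun hu 0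
    have e1 := congrFun hu 1
    rw [dR_zero] at e0
    rw [dR_one] at e1
    have v0 := fun i => congrArg (fun t => rv t i) e0
    have v1 := fun i => congrArg (fun t => rv t i) e1
    have w0 := fun i => congrArg (fun t => rw' t i) e0
    have w1 := fun i => congrArg (fun t => rw' t i) e1
    have c0 := congrArg rc e0
    have c1 := congrArg rc e1
    simp only [rv_mk, rw_mk, rc_mk, Pi.zero_apply, rv_zero, rw_zero, rc_zero] at v0 v1 w0 w1 c0 c1
    have v00 := v0 0
    have v11 := v1 1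
    have w00 := w0 0
    have w01 := w0 1
    have w02 := w0 2
    have w03 := w0 3
    have w04 := w0 4
    have w05 := w0 5
    have w10 := w1 0
    have w11 := w1 1
    have w12 := w1 2
    have w13 := w1 3
    have w14 := w1 4
    have w15 := w1 5
    simp at v00 v11 w01 w02 w03 w04 w05 w10 w12 w13 w14 w15
    have k3 : rv (u 0) 3 = 0 := by
      have h5 : rv (u 1) 5 = rv (u 0) 3 := by linarith
      rw [h5] at w05
      have h6 : (1 + β) * rv (u 0) 3 = 0 := by linarith
      rcases mul_eq_zero.1 h6 with h7 | h7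
      · exact absurd h7 h1'
      · exact h7
    have k5 : rv (u 1) 5 = 0 := by linarith
    have k4 : rv (u 0) 4 = 0 := by rw [w12] at w01; linarith
    have k4' : rv (u 1) 4 = 0 := by linarith
    have k3' : rv (u 1) 3 = rv (u 0) 0 := by linarith
    have k2 : rv (u 0) 2 = 2 * β * rv (u 1) 1 := by rw [w14] at w02; linarith
    have ka : ra (u 0) = 0 := v00
    have kb : ra (u 1) = 0 := v11
    obtain ⟨τ, hτ⟩ : ∃ τ : ℚ, (1 + 2 * β) * τ = rw' (u 0) 5 - rw' (u 1) 3 :=
      ⟨(rw' (u 0) 5 - rw' (u 1) 3) / (1 + 2 * β), by field_simp⟩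
    refine ⟨![mk (rv (u 0) 0) ![0, rw' (u 0) 4, rw' (u 0) 2 - 2 * β * rw' (u 1) 4,
        rw' (u 1) 3 + τ, rw' (u 0) 1 - 2 * β * rw' (u 1) 2, rw' (u 0) 3]
        ![rc (u 0), 0, 0, rc (u 1), 0, 0] 0,
      mk (rv (u 1) 1) ![rw' (u 1) 4, 0, - rw' (u 1) 2 / 2, - rw' (u 0) 4 - rw' (u 1) 5,
        rw' (u 1) 0 - rw' (u 0) 3, τ] 0 0], ?_⟩
    funext i
    fin_cases i
    · change dR (2 * β) _ 0 = u 0
      rw [dR_zero]
      apply ext'
      · simp [ka]
      · intro i
        fin_cases i <;> simp [w04, k3, k4, w03, k2]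
      · intro i
        fin_cases i <;> simp
        all_goals linarith
      · simp
    · change dR (2 * β) _ 1 = u 1
      rw [dR_one]
      apply ext'
      · simp [kb]
      · intro i
        fin_cases i <;> simp [w14, w12, k3', k4', k5]
      · intro i
        fin_cases i <;> simp
        all_goals linarith
      · simp
  · rintro _ ⟨t, rfl⟩
    rw [LinearMap.mem_ker]
    funext i
    fin_cases i
    · change dR β (dR (2 * β) t) 0 = 0
      rw [dR_zero, dR_zero, dR_one]
      apply ext'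
      · simp
      · intro i
        fin_cases i <;> simp
      · intro i
        fin_cases i <;> simp
        all_goals ring
      · simp
        ring
    · change dR β (dR (2 * β) t) 1 = 0
      rw [dR_one, dR_zero, dR_one]
      apply ext'
      · simp
      · intro i
        fin_cases i <;> simp
      · intro i
        fin_cases i <;> simp
      · simp

end RR

end Pool.Agent.T2H43.LK
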