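import Pool.Agent.T2H43.LK.D2
import Pool.Agent.T2H43.LK.Mat

set_option autoImplicit false

/-!
# The upper bound for the Betti numbers
-/

namespace Pool.Agent.T2H43.LK

namespace D2

variable {A : Type} [CommRing A] {n : ℕ}

theorem U_smul_add {U : Submodule A (Fin n → A)} {x y : Fin n → A} (a b : A) (hx : x ∈ U)
    (hy : y ∈ U) : (fun i => a * x i + b * y i) ∈ U :=
  U.add_mem (U.smul_mem a hx) (U.smul_mem b hy)

/-- vectors all of whose coordinates lie in `U` -/
def N0 (U : Submodule A (Fin n → A)) : Submodule (D2 A) (Fin n → D2 A) where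
  carrier := {u | (fun i => pa (u i)) ∈ U ∧ (fun i => pb (u i)) ∈ U ∧ (fun i => pc (u i)) ∈ U ∧
    (fun i => pd (u i)) ∈ U}
  add_mem' {x y} hx hy := ⟨U.add_mem hx.1 hy.1, U.add_mem hx.2.1 hy.2.1,
    U.add_mem hx.2.2.1 hy.2.2.1, U.add_mem hx.2.2.2 hy.2.2.2⟩
  zero_mem' := ⟨U.zero_mem, U.zero_mem, U.zero_mem, U.zero_mem⟩
  smul_mem' t x hx := by
    obtain ⟨ha, hb, hc, hd⟩ := hx
    refine ⟨U.smul_mem (pa t) ha, ?_, ?_, ?_⟩
    · have : (fun i => pb ((t • x) i)) = fun i => pa t * pb (x i) + pb t * pa (x i) := by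
        funext i; simp
      rw [this]
      exact U_smul_add _ _ hb ha
    · have : (fun i => pc ((t • x) i)) = fun i => pa t * pc (x i) + pc t * pa (x i) := by
        funext i; simp
      rw [this]
      exact U_smul_add _ _ hc ha
    · have : (fun i => pd ((t • x) i)) = (fun i => pa t * pd (x i) + pd t * pa (x i)) +
          fun i => pb t * pc (x i) + pc t * pb (x i) := by
        funext i; simp; ring
      rw [this]
      exact U.add_mem (U_smul_add _ _ hd ha) (U_smul_add _ _ hc hb)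

/-- `z N0` -/
def N1 (U : Submodule A (Fin n → A)) : Submodule (D2 A) (Fin n → D2 A) where
  carrier := {u | (∀ i, pa (u i) = 0) ∧ (∀ i, pb (u i) = 0) ∧ (fun i => pc (u i)) ∈ U ∧
    (fun i => pd (u i)) ∈ U}
  add_mem' {x y} hx hy := ⟨fun i => by simp [hx.1, hy.1], fun i => by simp [hx.2.1, hy.2.1],
    U.add_mem hx.2.2.1 hy.2.2.1, U.add_mem hx.2.2.2 hy.2.2.2⟩
  zero_mem' := ⟨fun _ => rfl, fun _ => rfl, U.zero_mem, U.zero_mem⟩
  smul_mem' t x hx := by
    obtain ⟨ha, hb, hc, hd⟩ := hx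
    refine ⟨fun i => by simp [ha], fun i => by simp [ha, hb], ?_, ?_⟩
    · have : (fun i => pc ((t • x) i)) = pa t • fun i => pc (x i) := by
        funext i; simp [ha]
      rw [this]
      exact U.smul_mem _ hc
    · have : (fun i => pd ((t • x) i)) = fun i => pa t * pd (x i) + pb t * pc (x i) := by
        funext i; simp [ha, hb]
      rw [this]
      exact U_smul_add _ _ hd hc

/-- `y z N0` -/
def N2 (U : Submodule A (Fin n → A)) : Submodule (D2 A) (Fin n → D2 A) where
  carrier := {u | (∀ i, pa (u i) = 0) ∧ (∀ i, pb (u i) = 0) ∧ (∀ i, pc (u i) = 0) ∧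
    (fun i => pd (u i)) ∈ U}
  add_mem' {x y} hx hy := ⟨fun i => by simp [hx.1, hy.1], fun i => by simp [hx.2.1, hy.2.1],
    fun i => by simp [hx.2.2.1, hy.2.2.1], U.add_mem hx.2.2.2 hy.2.2.2⟩
  zero_mem' := ⟨fun _ => rfl, fun _ => rfl, fun _ => rfl, U.zero_mem⟩
  smul_mem' t x hx := by
    obtain ⟨ha, hb, hc, hd⟩ := hx
    refine ⟨fun i => by simp [ha], fun i => by simp [ha, hb], fun i => by simp [ha, hc], ?_⟩
    have : (fun i => pd ((t • x) i)) = pa t • fun i => pd (x i) := by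
      funext i; simp [ha, hb, hc]
    rw [this]
    exact U.smul_mem _ hd

def yy : D2 A := mk 0 1 0 0
def zz : D2 A := mk 0 0 1 0

theorem zz_mul (x : D2 A) : zz * x = mk 0 0 (pa x) (pb x) := by
  apply ext' <;> simp [zz]

theorem yy_mul (x : D2 A) : yy * x = mk 0 (pa x) 0 (pc x) := by
  apply ext' <;> simp [yy]

theorem hasRes_N1 {U : Submodule A (Fin n → A)} {m : ℕ → ℕ}
    (h : ∀ k, HasRes (D2 A) k m (N0 U)) (k : ℕ) : HasRes (D2 A) k (psum m) (N1 U) := by
  have hle : N1 U ≤ N0 U := fun u hu => by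
    obtain ⟨ha, hb, hc, hd⟩ := hu
    refine ⟨?_, ?_, hc, hd⟩
    · have : (fun i => pa (u i)) = 0 := funext ha
      rw [this]; exact U.zero_mem
    · have : (fun i => pb (u i)) = 0 := funext hb
      rw [this]; exact U.zero_mem
  set f : (Fin n → D2 A) →ₗ[D2 A] (Fin n → D2 A) := (zz : D2 A) • LinearMap.id with hf
  have hfa : ∀ u i, f u i = mk 0 0 (pa (u i)) (pb (u i)) := fun u i => by
    rw [hf, LinearMap.smul_apply, LinearMap.id_apply, Pi.smul_apply, smul_eq_mul, zz_mul]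
  have hmap : ∀ u ∈ N0 U, f u ∈ N1 U := fun u hu => by
    obtain ⟨ha, hb, hc, hd⟩ := hu
    refine ⟨fun i => by rw [hfa]; rfl, fun i => by rw [hfa]; rfl, ?_, ?_⟩
    · simp only [hfa, pc_mk]; exact ha
    · simp only [hfa, pd_mk]; exact hb
  refine selfext (Submodule.inclusion hle) (LinearMap.restrict f hmap)
    (Submodule.inclusion_injective hle) ?_ ?_ m h k
  · rintro ⟨u, ha, hb, hc, hd⟩
    refine ⟨⟨fun i => mk (pc (u i)) (pd (u i)) 0 0, ?_⟩, ?_⟩
    · exact ⟨hc, hd, U.zero_mem, U.zero_mem⟩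
    · apply Subtype.ext
      funext i
      change f _ i = u i
      rw [hfa]
      apply ext'
      · simp [ha]
      · simp [hb]
      · simp
      · simp
  · apply le_antisymm
    · rintro _ ⟨u, rfl⟩
      rw [LinearMap.mem_ker]
      apply Subtype.ext
      funext i
      change f u.1 i = 0
      rw [hfa, u.2.1, u.2.2.1]
      rfl
    · intro u hu
      rw [LinearMap.mem_ker] at hu
      have h1 : ∀ i, f u.1 i = 0 := fun i => congrFun (congrArg Subtype.val hu) i
      refine ⟨⟨u.1, fun i => ?_, fun i => ?_, u.2.2.2.1, u.2.2.2.2⟩, rfl⟩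
      · have := congrArg pc (h1 i)
        rw [hfa] at this
        exact this
      · have := congrArg pd (h1 i)
        rw [hfa] at this
        exact this

theorem hasRes_N2 {U : Submodule A (Fin n → A)} {m : ℕ → ℕ}
    (h : ∀ k, HasRes (D2 A) k m (N1 U)) (k : ℕ) : HasRes (D2 A) k (psum m) (N2 U) := by
  have hle : N2 U ≤ N1 U := fun u hu => by
    obtain ⟨ha, hb, hc, hd⟩ := hu
    refine ⟨ha, hb, ?_, hd⟩
    have : (fun i => pc (u i)) = 0 := funext hc
    rw [this]; exact U.zero_mem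
  set f : (Fin n → D2 A) →ₗ[D2 A] (Fin n → D2 A) := (yy : D2 A) • LinearMap.id with hf
  have hfa : ∀ u i, f u i = mk 0 (pa (u i)) 0 (pc (u i)) := fun u i => by
    rw [hf, LinearMap.smul_apply, LinearMap.id_apply, Pi.smul_apply, smul_eq_mul, yy_mul]
  have hmap : ∀ u ∈ N1 U, f u ∈ N2 U := fun u hu => by
    obtain ⟨ha, hb, hc, hd⟩ := hu
    refine ⟨fun i => by rw [hfa]; rfl, fun i => by rw [hfa, pb_mk, ha], fun i => by
      rw [hfa]; rfl, ?_⟩
    simp only [hfa, pd_mk]; exact hc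
  refine selfext (Submodule.inclusion hle) (LinearMap.restrict f hmap)
    (Submodule.inclusion_injective hle) ?_ ?_ m h k
  · rintro ⟨u, ha, hb, hc, hd⟩
    refine ⟨⟨fun i => mk 0 0 (pd (u i)) 0, ?_⟩, ?_⟩
    · exact ⟨fun _ => rfl, fun _ => rfl, hd, U.zero_mem⟩
    · apply Subtype.ext
      funext i
      change f _ i = u i
      rw [hfa]
      apply ext'
      · simp [ha]
      · simp [hb]
      · simp [hc]
      · simp
  · apply le_antisymm
    · rintro _ ⟨u, rfl⟩
      rw [LinearMap.mem_ker]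
      apply Subtype.ext
      funext i
      change f u.1 i = 0
      rw [hfa, u.2.1, u.2.2.2.1]
      rfl
    · intro u hu
      rw [LinearMap.mem_ker] at hu
      have h1 : ∀ i, f u.1 i = 0 := fun i => congrFun (congrArg Subtype.val hu) i
      refine ⟨⟨u.1, u.2.1, u.2.2.1, fun i => ?_, u.2.2.2.2⟩, rfl⟩
      have := congrArg pd (h1 i)
      rw [hfa] at this
      exact this

/-- the ideal `{b y + c z + d y z : (b, c) ∈ U}` -/
def JJ (U : Submodule A (Fin 2 → A)) : Ideal (D2 A) where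
  carrier := {x | pa x = 0 ∧ (![pb x, pc x] : Fin 2 → A) ∈ U}
  add_mem' {x y} hx hy := by
    refine ⟨by simp [hx.1, hy.1], ?_⟩
    have : (![pb (x + y), pc (x + y)] : Fin 2 → A) = ![pb x, pc x] + ![pb y, pc y] := by
      funext i; fin_cases i <;> simp
    rw [this]
    exact U.add_mem hx.2 hy.2
  zero_mem' := by
    refine ⟨rfl, ?_⟩
    have : (![pb (0 : D2 A), pc (0 : D2 A)] : Fin 2 → A) = 0 := by
      funext i; fin_cases i <;> simp
    rw [this]
    exact U.zero_mem
  smul_mem' t x hx := by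
    refine ⟨by simp [hx.1], ?_⟩
    have : (![pb (t • x), pc (t • x)] : Fin 2 → A) = pa t • ![pb x, pc x] := by
      funext i; fin_cases i <;> simp [hx.1]
    rw [this]
    exact U.smul_mem _ hx.2

theorem hasRes_JJ {U : Submodule A (Fin 2 → A)} {m m' : ℕ → ℕ}
    (h : ∀ k, HasRes (D2 A) k m (N2 U))
    (h' : ∀ k, HasRes (D2 A) k m' (N2 (⊤ : Submodule A (Fin 1 → A)))) (k : ℕ) :
    HasRes (D2 A) k (fun j => m' j + m j) (JJ U) := by
  have hi : ∀ u ∈ N2 (⊤ : Submodule A (Fin 1 → A)),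
      (LinearMap.proj 0 : (Fin 1 → D2 A) →ₗ[D2 A] D2 A) u ∈ JJ U := by
    intro u hu
    obtain ⟨ha, hb, hc, hd⟩ := hu
    refine ⟨ha 0, ?_⟩
    have : (![pb (u 0), pc (u 0)] : Fin 2 → A) = 0 := by
      funext i; fin_cases i
      · exact hb 0
      · exact hc 0
    change (![pb (u 0), pc (u 0)] : Fin 2 → A) ∈ U
    rw [this]
    exact U.zero_mem
  set p : D2 A →ₗ[D2 A] (Fin 2 → D2 A) :=
    LinearMap.pi ![(zz : D2 A) • LinearMap.id, (yy : D2 A) • LinearMap.id] with hp
  have hp0 : ∀ x, p x 0 = mk 0 0 (pa x) (pb x) := fun x => by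
    rw [← zz_mul]; rfl
  have hp1 : ∀ x, p x 1 = mk 0 (pa x) 0 (pc x) := fun x => by
    rw [← yy_mul]; rfl
  have hpm : ∀ x ∈ JJ U, p x ∈ N2 U := by
    intro x hx
    obtain ⟨ha, hU⟩ := hx
    refine ⟨Fin.forall_fin_two.2 ⟨?_, ?_⟩, Fin.forall_fin_two.2 ⟨?_, ?_⟩,
      Fin.forall_fin_two.2 ⟨?_, ?_⟩, ?_⟩
    · rw [hp0]; rfl
    · rw [hp1]; rfl
    · rw [hp0]; rfl
    · rw [hp1, pb_mk, ha]
    · rw [hp0, pc_mk, ha]
    · rw [hp1]; rfl
    · have : (fun i => pd (p x i)) = ![pb x, pc x] := by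
        refine funext (Fin.forall_fin_two.2 ⟨?_, ?_⟩)
        · rw [hp0]; rfl
        · rw [hp1]; rfl
      rw [this]
      exact hU
  refine horseshoe k m' m (↥(N2 (⊤ : Submodule A (Fin 1 → A)))) (↥(JJ U)) (↥(N2 U))
    (LinearMap.restrict _ hi) (LinearMap.restrict p hpm) ?_ ?_ ?_ (h' k) (h k)
  · intro u v huv
    have h1 : u.1 0 = v.1 0 := congrArg Subtype.val huv
    apply Subtype.ext
    funext i
    fin_cases i
    exact h1
  · rintro ⟨u, ha, hb, hc, hd⟩
    refine ⟨⟨mk 0 (pd (u 0)) (pd (u 1)) 0, rfl, ?_⟩, ?_⟩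
    · have : (![pb (mk 0 (pd (u 0)) (pd (u 1)) 0), pc (mk 0 (pd (u 0)) (pd (u 1)) 0)] :
          Fin 2 → A) = fun i => pd (u i) := by
        refine funext (Fin.forall_fin_two.2 ⟨rfl, rfl⟩)
      rw [this]
      exact hd
    · apply Subtype.ext
      change p _ = u
      refine funext (Fin.forall_fin_two.2 ⟨?_, ?_⟩)
      · rw [hp0]
        exact ext' (ha 0).symm (hb 0).symm (hc 0).symm rfl
      · rw [hp1]
        exact ext' (ha 1).symm (hb 1).symm (hc 1).symm rfl
  · apply le_antisymm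
    · rintro _ ⟨u, rfl⟩
      obtain ⟨u, ha, hb, hc, hd⟩ := u
      rw [LinearMap.mem_ker]
      apply Subtype.ext
      change p (u 0) = 0
      refine funext (Fin.forall_fin_two.2 ⟨?_, ?_⟩)
      · rw [hp0, ha, hb]; rfl
      · rw [hp1, ha, hc]; rfl
    · rintro ⟨x, ha, hU⟩ hx
      rw [LinearMap.mem_ker] at hx
      have h1 : p x = 0 := congrArg Subtype.val hx
      have h2 := congrArg pd (congrFun h1 0)
      have h3 := congrArg pd (congrFun h1 1)
      rw [hp0] at h2
      rw [hp1] at h3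
      refine ⟨⟨fun _ => x, fun _ => ha, fun _ => h2, fun _ => h3, trivial⟩, rfl⟩

/-- matrices with entries in `A` -/
noncomputable def matD (p q r s : A) : (Fin 2 → D2 A) →ₗ[D2 A] (Fin 2 → D2 A) :=
  mat (algebraMap A (D2 A) p) (algebraMap A (D2 A) q) (algebraMap A (D2 A) r)
    (algebraMap A (D2 A) s)

theorem matD_coord (p q r s : A) (u : Fin 2 → D2 A) :
    (fun i => pa (matD p q r s u i)) = mat p q r s (fun i => pa (u i)) ∧
    (fun i => pb (matD p q r s u i)) = mat p q r s (fun i => pb (u i)) ∧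
    (fun i => pc (matD p q r s u i)) = mat p q r s (fun i => pc (u i)) ∧
    (fun i => pd (matD p q r s u i)) = mat p q r s (fun i => pd (u i)) := by
  refine ⟨?_, ?_, ?_, ?_⟩ <;>
  · funext i
    fin_cases i <;> simp [matD, algebraMap_eq]

theorem ker_matD (p q r s : A) :
    LinearMap.ker (matD p q r s) = N0 (LinearMap.ker (mat p q r s)) := by
  ext u
  obtain ⟨h1, h2, h3, h4⟩ := matD_coord p q r s u
  rw [LinearMap.mem_ker]
  constructor
  · intro h
    refine ⟨?_, ?_, ?_, ?_⟩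
    · rw [LinearMap.mem_ker, ← h1, h]; rfl
    · rw [LinearMap.mem_ker, ← h2, h]; rfl
    · rw [LinearMap.mem_ker, ← h3, h]; rfl
    · rw [LinearMap.mem_ker, ← h4, h]; rfl
  · rintro ⟨ha, hb, hc, hd⟩
    rw [LinearMap.mem_ker] at ha hb hc hd
    rw [← h1] at ha
    rw [← h2] at hb
    rw [← h3] at hc
    rw [← h4] at hd
    funext i
    exact ext' (congrFun ha i) (congrFun hb i) (congrFun hc i) (congrFun hd i)

theorem range_matD (p q r s : A) :
    LinearMap.range (matD p q r s) = N0 (LinearMap.range (mat p q r s)) := by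
  ext u
  constructor
  · rintro ⟨v, rfl⟩
    obtain ⟨h1, h2, h3, h4⟩ := matD_coord p q r s v
    refine ⟨?_, ?_, ?_, ?_⟩
    · rw [h1]; exact ⟨_, rfl⟩
    · rw [h2]; exact ⟨_, rfl⟩
    · rw [h3]; exact ⟨_, rfl⟩
    · rw [h4]; exact ⟨_, rfl⟩
  · rintro ⟨⟨a, ha⟩, ⟨b, hb⟩, ⟨c, hc⟩, ⟨d, hd⟩⟩
    refine ⟨fun i => mk (a i) (b i) (c i) (d i), ?_⟩
    obtain ⟨h1, h2, h3, h4⟩ := matD_coord p q r s (fun i => mk (a i) (b i) (c i) (d i))
    funext i
    refine ext' ?_ ?_ ?_ ?_
    · exact (congrFun h1 i).trans (congrFun ha i)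
    · exact (congrFun h2 i).trans (congrFun hb i)
    · exact (congrFun h3 i).trans (congrFun hc i)
    · exact (congrFun h4 i).trans (congrFun hd i)

theorem hasRes_top (k : ℕ) :
    HasRes (D2 A) k (fun i => if i = 0 then 1 else 0) (N0 (⊤ : Submodule A (Fin 1 → A))) := by
  have h : N0 (⊤ : Submodule A (Fin 1 → A)) = ⊤ := by
    rw [eq_top_iff]
    intro u _
    exact ⟨trivial, trivial, trivial, trivial⟩
  rw [h]
  exact HasRes.equiv k _ _ _ (Submodule.topEquiv (R := D2 A) (M := Fin 1 → D2 A)).symm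
    (HasRes.free 1 k)

end D2

theorem psum_one (j : ℕ) : psum (fun i => if i = 0 then 1 else 0) j = 1 := by
  induction j with
  | zero => rfl
  | succ j ih =>
    change (if j + 1 = 0 then 1 else 0) + psum _ j = 1
    rw [ih]
    simp

theorem psum_psum_one (j : ℕ) : psum (psum (fun i => if i = 0 then 1 else 0)) j = j + 1 := by
  induction j with
  | zero => rfl
  | succ j ih =>
    change psum (fun i => if i = 0 then 1 else 0) (j + 1) + psum _ j = _
    rw [ih, psum_one]
    omega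

theorem psum_two (j : ℕ) : psum (fun _ => 2) j = 2 * (j + 1) := by
  induction j with
  | zero => rfl
  | succ j ih =>
    change 2 + psum _ j = _
    rw [ih]
    omega

theorem psum_psum_two (j : ℕ) : psum (psum (fun _ => 2)) j = (j + 1) * (j + 2) := by
  induction j with
  | zero => rfl
  | succ j ih =>
    change psum (fun _ => 2) (j + 1) + psum _ j = _
    rw [ih, psum_two]
    ring

namespace D2

open RR

theorem betti_JJ_le [IsLocalRing RR] [IsNoetherianRing RR] (n : ℕ) :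
    betti (D2 RR) (JJ (LinearMap.range (dR (-2)))) n ≤ (((n + 1) * (n + 3) : ℕ) : ℕ∞) := by
  have hd : ∀ i : ℕ, LinearMap.ker (dR (-2 * 2 ^ i)) = LinearMap.range (dR (-2 * 2 ^ (i + 1))) := by
    intro i
    have h := dR_exact (-2 * 2 ^ i) ?_ ?_
    · rw [h]
      congr 2
      ring
    · have : (1 : ℚ) ≤ 2 ^ i := one_le_pow₀ (by norm_num)
      intro h
      linarith
    · have : (1 : ℚ) ≤ 2 ^ i := one_le_pow₀ (by norm_num)
      intro h
      linarith
  have h0 : ∀ k, HasRes (D2 RR) k (fun _ => 2) (N0 (LinearMap.range (dR (-2)))) := by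
    intro k
    have h1 := HasRes.chain (S := D2 RR) (a := 2)
      (fun i => matD x1 ((-2 * 2 ^ i : ℚ) • x3) x4 x2) (fun i => by
        rw [ker_matD, range_matD]
        exact congrArg N0 (hd i)) k 0
    have h2 : LinearMap.range (matD x1 ((-2 * 2 ^ 0 : ℚ) • x3) x4 x2) =
        N0 (LinearMap.range (dR (-2))) := by
      rw [range_matD]
      have : (-2 * 2 ^ 0 : ℚ) = -2 := by norm_num
      rw [this]
      rfl
    rw [← h2]
    exact h1
  have h1 := hasRes_JJ (fun k => hasRes_N2 (fun k => hasRes_N1 h0 k) k)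
    (fun k => hasRes_N2 (fun k => hasRes_N1 (A := RR) hasRes_top k) k)
  have h2 := HasRes.betti_le h1 n
  refine h2.trans ?_
  rw [psum_psum_two, psum_psum_one]
  have : n + 1 + (n + 1) * (n + 2) = (n + 1) * (n + 3) := by ring
  rw [this]

end D2

end Pool.Agent.T2H43.LK
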