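import Pool.Agent.T2H43.LK.Low

set_option autoImplicit false

/-!
# The module with exponentially growing Betti numbers
-/

namespace Pool.Agent.T2H43.LK

namespace RR

/-- the transpose of `d_{-2}` -/
noncomputable def tR : (Fin 2 → RR) →ₗ[RR] (Fin 2 → RR) := mat x1 x4 ((-2 : ℚ) • x3) x2

theorem tR_zero (u : Fin 2 → RR) : tR u 0 = mk 0
    ![ra (u 0), 0, 0, ra (u 1), 0, 0]
    ![rv (u 1) 5, rv (u 0) 4 - rv (u 1) 5, rv (u 0) 2, rv (u 0) 5 + rv (u 1) 3, rv (u 0) 1,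
      rv (u 0) 3 + (rv (u 1) 0 - rv (u 1) 1)]
    (rw' (u 0) 0 + rw' (u 1) 3) := by
  have h : tR u 0 = x1 * u 0 + x4 * u 1 := by
    rw [tR, mat_zero]
  rw [h, x1_mul, x4_mul]
  apply ext'
  · simp
  · intro i
    fin_cases i <;> simp
  · intro i
    fin_cases i <;> simp
    ring
  · simp

theorem tR_one (u : Fin 2 → RR) : tR u 1 = mk 0
    ![0, ra (u 1), -2 * ra (u 0), 0, 0, 0]
    ![-2 * rv (u 0) 2 + rv (u 1) 4, 4 * rv (u 0) 2,
      -2 * (rv (u 0) 0 - 2 * rv (u 0) 1) - 2 * rv (u 1) 2, - rv (u 1) 5, rv (u 1) 0,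
      -2 * rv (u 0) 5 - rv (u 1) 3]
    (-2 * rw' (u 0) 2 + rw' (u 1) 1) := by
  have h : tR u 1 = (-2 : ℚ) • (x3 * u 0) + x2 * u 1 := by
    rw [tR, mat_one, smul_mul_assoc]
  rw [h, x3_mul, x2_mul]
  apply ext'
  · simp
  · intro i
    fin_cases i <;> simp
  · intro i
    fin_cases i <;> simp
    all_goals ring
  · simp

/-- the module `V` -/
noncomputable def VV : Submodule RR (Fin 2 → RR) := LinearMap.ker tR

theorem mem_VV (u : Fin 2 → RR) : u ∈ VV ↔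
    (ra (u 0) = 0 ∧ ra (u 1) = 0) ∧
    (rv (u 0) 1 = 0 ∧ rv (u 0) 2 = 0 ∧ rv (u 0) 4 = 0 ∧ rv (u 0) 5 = 0) ∧
    (rv (u 1) 0 = 0 ∧ rv (u 1) 1 = rv (u 0) 3 ∧ rv (u 1) 2 = - rv (u 0) 0 ∧ rv (u 1) 3 = 0 ∧
      rv (u 1) 4 = 0 ∧ rv (u 1) 5 = 0) ∧
    rw' (u 1) 3 = - rw' (u 0) 0 ∧ rw' (u 1) 1 = 2 * rw' (u 0) 2 := by
  constructor
  · intro hu
    have hu : tR u = 0 := hu
    have e0 := congrFun hu 0
    have e1 := congrFun hu 1
    rw [tR_zero] at e0
    rw [tR_one] at e1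
    have v0 := fun i => congrArg (fun t => rv t i) e0
    have w0 := fun i => congrArg (fun t => rw' t i) e0
    have w1 := fun i => congrArg (fun t => rw' t i) e1
    have c0 := congrArg rc e0
    have c1 := congrArg rc e1
    simp only [rv_mk, rw_mk, rc_mk, Pi.zero_apply, rv_zero, rw_zero, rc_zero] at v0 w0 w1 c0 c1
    have v00 := v0 0
    have v03 := v0 3
    have w00 := w0 0
    have w01 := w0 1
    have w02 := w0 2
    have w03 := w0 3
    have w04 := w0 4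
    have w05 := w0 5
    have w10 := w1 0
    have w12 := w1 2
    have w14 := w1 4
    have w15 := w1 5
    simp at v00 v03 w00 w01 w02 w03 w04 w05 w10 w12 w14 w15
    refine ⟨⟨v00, v03⟩, ⟨w04, w02, ?_, ?_⟩, ⟨w14, ?_, ?_, ?_, ?_, w00⟩, ?_, ?_⟩ <;> linarith
  · rintro ⟨⟨a0, a1⟩, ⟨b1, b2, b4, b5⟩, ⟨c0, c1, c2, c3, c4, c5⟩, d0, d1⟩
    change tR u = 0
    funext i
    fin_cases i
    · change tR u 0 = 0
      rw [tR_zero]
      apply ext'
      · simp
      · intro i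
        fin_cases i <;> simp [a0, a1]
      · intro i
        fin_cases i <;> simp [b1, b2, b4, b5, c0, c1, c3, c5]
      · simp [d0]
    · change tR u 1 = 0
      rw [tR_one]
      apply ext'
      · simp
      · intro i
        fin_cases i <;> simp [a0, a1]
      · intro i
        fin_cases i <;> simp [b1, b2, b5, c0, c2, c3, c4, c5]
      · simp [d1]

theorem VV_ext {x y : Fin 2 → RR} (hx : x ∈ VV) (hy : y ∈ VV)
    (e0 : rv (x 0) 0 = rv (y 0) 0) (e1 : rv (x 0) 3 = rv (y 0) 3)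
    (e2 : ∀ i, rw' (x 0) i = rw' (y 0) i) (e8 : rw' (x 1) 0 = rw' (y 1) 0)
    (e9 : rw' (x 1) 2 = rw' (y 1) 2) (e10 : rw' (x 1) 4 = rw' (y 1) 4)
    (e11 : rw' (x 1) 5 = rw' (y 1) 5) (e12 : rc (x 0) = rc (y 0)) (e13 : rc (x 1) = rc (y 1)) :
    x = y := by
  obtain ⟨⟨a0, a1⟩, ⟨b1, b2, b4, b5⟩, ⟨c0, c1, c2, c3, c4, c5⟩, d0, d1⟩ := (mem_VV x).1 hx
  obtain ⟨⟨a0', a1'⟩, ⟨b1', b2', b4', b5'⟩, ⟨c0', c1', c2', c3', c4', c5'⟩, d0', d1'⟩ :=
    (mem_VV y).1 hy
  have k1 : x 0 = y 0 := by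
    refine ext' (a0.trans a0'.symm) (fun i => ?_) e2 e12
    fin_cases i
    · exact e0
    · exact b1.trans b1'.symm
    · exact b2.trans b2'.symm
    · exact e1
    · exact b4.trans b4'.symm
    · exact b5.trans b5'.symm
  have k2 : x 1 = y 1 := by
    refine ext' (a1.trans a1'.symm) (fun i => ?_) (fun i => ?_) e13
    · fin_cases i
      · exact c0.trans c0'.symm
      · exact c1.trans (e1.trans c1'.symm)
      · exact c2.trans ((congrArg Neg.neg e0).trans c2'.symm)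
      · exact c3.trans c3'.symm
      · exact c4.trans c4'.symm
      · exact c5.trans c5'.symm
    · fin_cases i
      · exact e8
      · exact d1.trans ((congrArg (fun t => 2 * t) (e2 2)).trans d1'.symm)
      · exact e9
      · exact d0.trans ((congrArg Neg.neg (e2 0)).trans d0'.symm)
      · exact e10
      · exact e11
  exact funext (Fin.forall_fin_two.2 ⟨k1, k2⟩)

/-- coordinates on `V` -/
def coo : VV →ₗ[ℚ] ((Fin 8 → ℚ) × (Fin 6 → ℚ)) where
  toFun := fun u => (![rv (u.1 0) 0, rv (u.1 0) 3, rw' (u.1 1) 0, rw' (u.1 1) 2, rw' (u.1 1) 4,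
        rw' (u.1 1) 5, rc (u.1 0), rc (u.1 1)], rw' (u.1 0))
  map_add' := fun x y => by
    refine Prod.ext ?_ rfl
    funext i
    fin_cases i <;> rfl
  map_smul' := fun t x => by
    refine Prod.ext ?_ rfl
    funext i
    fin_cases i <;> rfl

theorem VV_finrank : Module.finrank ℚ VV ≤ 14 := by
  have hf : Function.Injective coo := by
    intro x y hxy
    have e := fun i => congrFun (congrArg Prod.fst hxy) i
    have e' := fun i => congrFun (congrArg Prod.snd hxy) i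
    exact Subtype.ext (VV_ext x.2 y.2 (e 0) (e 1) e' (e 2) (e 3) (e 4) (e 5) (e 6) (e 7))
  have h1 := LinearMap.finrank_le_finrank_of_injective hf
  simpa using h1

instance : Module.Finite ℚ VV := Module.Finite.trans RR VV

/-- the three functionals -/
def ll : VV →ₗ[ℚ] (Fin 3 → ℚ) where
  toFun := fun u => ![rv (u.1 0) 0, rv (u.1 1) 1, rw' (u.1 0) 3 + rw' (u.1 1) 5]
  map_add' := fun x y => by
    funext i
    fin_cases i
    · rfl
    · rfl
    · change rw' (x.1 0 + y.1 0) 3 + rw' (x.1 1 + y.1 1) 5 =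
        rw' (x.1 0) 3 + rw' (x.1 1) 5 + (rw' (y.1 0) 3 + rw' (y.1 1) 5)
      simp
      ring
  map_smul' := fun t x => by
    funext i
    fin_cases i
    · rfl
    · rfl
    · change rw' (t • x.1 0) 3 + rw' (t • x.1 1) 5 = t * (rw' (x.1 0) 3 + rw' (x.1 1) 5)
      simp
      ring

theorem ll_surj : Function.Surjective ll := by
  intro y
  have h : (![mk 0 ![y 0, 0, 0, y 1, 0, 0] ![0, 0, 0, y 2, 0, 0] 0,
      mk 0 ![0, y 1, - y 0, 0, 0, 0] 0 0] : Fin 2 → RR) ∈ VV := by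
    rw [mem_VV]
    simp
  refine ⟨⟨_, h⟩, ?_⟩
  funext i
  fin_cases i <;> simp [ll]

theorem ll_kill (a : RR) (x : VV) (ha : ra a = 0) : ll (a • x) = 0 := by
  obtain ⟨⟨a0, a1⟩, ⟨b1, b2, b4, b5⟩, ⟨c0, c1, c2, c3, c4, c5⟩, d0, d1⟩ := (mem_VV x.1).1 x.2
  funext i
  fin_cases i
  · change rv (a * x.1 0) 0 = 0
    simp [ha, a0]
  · change rv (a * x.1 1) 1 = 0
    simp [ha, a1]
  · change rw' (a * x.1 0) 3 + rw' (a * x.1 1) 5 = 0
    simp [ha, a0, a1, B, b1, b2, b4, b5, c0, c1, c2, c3, c4, c5]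

theorem betti_VV (n : ℕ) : ((3 * 2 ^ n : ℕ) : ℕ∞) ≤ betti RR VV n :=
  growth VV_finrank ll ll_surj ll_kill n

end RR

end Pool.Agent.T2H43.LK
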