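import Pool.Agent.T2H43.LK.Frob
import Pool.Agent.T2H43.LK.Lim
import Pool.Agent.T2H43.LK.VV
import Pool.Agent.T2H43.LK.Up

set_option autoImplicit false

/-!
# The linked ideals
-/

namespace Pool.Agent.T2H43.LK

open RR D2

/-- the swap of the two coordinates of `V` -/
noncomputable def WW : Submodule RR (Fin 2 → RR) := VV.comap (mat 0 1 1 0)

theorem mem_WW (b c : RR) : (![b, c] : Fin 2 → RR) ∈ WW ↔ (![c, b] : Fin 2 → RR) ∈ VV := by
  have h : mat 0 1 1 0 (![b, c] : Fin 2 → RR) = ![c, b] := by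
    funext i
    fin_cases i <;> simp
  change mat 0 1 1 0 (![b, c] : Fin 2 → RR) ∈ VV ↔ _
  rw [h]

/-- the two ideals -/
noncomputable def II : Ideal (D2 RR) := JJ WW
noncomputable def J1 : Ideal (D2 RR) := JJ (LinearMap.range (dR (-2)))

theorem mem_II (x : D2 RR) : x ∈ II ↔ pa x = 0 ∧ (![pc x, pb x] : Fin 2 → RR) ∈ VV := by
  rw [← mem_WW]
  exact Iff.rfl

theorem mem_J1 (x : D2 RR) :
    x ∈ J1 ↔ pa x = 0 ∧ ∃ u, dR (-2) u = ![pb x, pc x] := Iff.rfl

theorem mem_VV' (b c : RR) : (![b, c] : Fin 2 → RR) ∈ VV ↔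
    x1 * b + x4 * c = 0 ∧ ((-2 : ℚ) • x3) * b + x2 * c = 0 := by
  have h : (![b, c] : Fin 2 → RR) ∈ VV ↔ tR ![b, c] = 0 := Iff.rfl
  rw [h]
  constructor
  · intro h1
    exact ⟨congrFun h1 0, congrFun h1 1⟩
  · rintro ⟨h1, h2⟩
    exact funext (Fin.forall_fin_two.2 ⟨h1, h2⟩)

theorem link1 (x : D2 RR) : x ∈ II ↔ ∀ y ∈ J1, x * y = 0 := by
  rw [mem_II, mem_VV']
  constructor
  · rintro ⟨ha, h1, h2⟩ y hy
    obtain ⟨hya, u, hu⟩ := (mem_J1 y).1 hy
    have hb : x1 * u 0 + ((-2 : ℚ) • x3) * u 1 = pb y := congrFun hu 0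
    have hc : x4 * u 0 + x2 * u 1 = pc y := congrFun hu 1
    apply D2.ext'
    · rw [pa_mul, ha, zero_mul]; rfl
    · rw [pb_mul, ha, hya, zero_mul, mul_zero, add_zero]; rfl
    · rw [pc_mul, ha, hya, zero_mul, mul_zero, add_zero]; rfl
    · rw [pd_mul, ha, hya, zero_mul, mul_zero, add_zero, zero_add, ← hb, ← hc]
      change _ = (0 : RR)
      linear_combination u 0 * h1 + u 1 * h2
  · intro h
    have hy : ∀ u : Fin 2 → RR, ∀ d, D2.mk 0 (dR (-2) u 0) (dR (-2) u 1) d ∈ J1 := by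
      intro u d
      rw [mem_J1]
      refine ⟨rfl, u, ?_⟩
      exact funext (Fin.forall_fin_two.2 ⟨rfl, rfl⟩)
    have h0 := congrArg pd (h _ (hy 0 1))
    have h1 := congrArg pd (h _ (hy (Pi.single 0 1) 0))
    have h2 := congrArg pd (h _ (hy (Pi.single 1 1) 0))
    rw [pd_mul] at h0 h1 h2
    simp only [map_zero, Pi.zero_apply, pa_mk, pb_mk, pc_mk, pd_mk, mul_one, mul_zero, add_zero,
      pd_zero] at h0
    rw [pa_mk, pb_mk, pc_mk, pd_mk, mul_zero, mul_zero, zero_add, zero_add] at h1 h2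
    have e1 : dR (-2) (Pi.single 0 1) 0 = x1 := by
      rw [dR, mat_zero]; simp
    have e2 : dR (-2) (Pi.single 0 1) 1 = x4 := by
      rw [dR, mat_one]; simp
    have e3 : dR (-2) (Pi.single 1 1) 0 = (-2 : ℚ) • x3 := by
      rw [dR, mat_zero]; simp
    have e4 : dR (-2) (Pi.single 1 1) 1 = x2 := by
      rw [dR, mat_one]; simp
    rw [e1, e2] at h1
    rw [e3, e4] at h2
    rw [pd_zero] at h1 h2
    refine ⟨h0, ?_, ?_⟩
    · rw [← h1]; ring
    · rw [← h2]; ring

noncomputable instance algQ : Algebra ℚ (D2 RR) :=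
  Algebra.compHom (D2 RR) (algebraMap ℚ RR)

instance : IsScalarTower ℚ RR (D2 RR) := IsScalarTower.of_algebraMap_eq (fun _ => rfl)

instance : FiniteDimensional ℚ (D2 RR) := Module.Finite.trans RR (D2 RR)

/-- the Frobenius form -/
noncomputable def phi : D2 RR →ₗ[ℚ] ℚ where
  toFun x := rc (pd x)
  map_add' x y := rfl
  map_smul' t x := by
    have h : t • x = (algebraMap ℚ RR t) • x := (algebraMap_smul RR t x).symm
    rw [h, pd_smul]
    rw [← Algebra.smul_def, rc_smul]
    rfl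

theorem RR.nondeg (x : RR) (h : ∀ r, rc (x * r) = 0) : x = 0 := by
  apply RR.ext'
  · have := h (RR.mk 0 0 0 1)
    simpa using this
  · intro i
    have := h (RR.mk 0 0 (Pi.single i 1) 0)
    simpa [Pi.single_apply] using this
  · intro i
    have := h (RR.mk 0 (Pi.single i 1) 0 0)
    simpa [Pi.single_apply] using this
  · have := h 1
    rw [mul_one] at this
    exact this

theorem phi_nondeg (a : D2 RR) (h : ∀ b, phi (a * b) = 0) : a = 0 := by
  have h' : ∀ b, rc (pd (a * b)) = 0 := h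
  apply D2.ext'
  · apply RR.nondeg
    intro r
    have := h' (D2.mk 0 0 0 r)
    simpa using this
  · apply RR.nondeg
    intro r
    have := h' (D2.mk 0 0 r 0)
    simpa using this
  · apply RR.nondeg
    intro r
    have := h' (D2.mk 0 r 0 0)
    simpa using this
  · apply RR.nondeg
    intro r
    have := h' (D2.mk r 0 0 0)
    simpa using this

theorem link2 (y : D2 RR) : y ∈ J1 ↔ ∀ x ∈ II, y * x = 0 := by
  constructor
  · intro hy x hx
    rw [mul_comm]
    exact (link1 x).1 hx y hy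
  · intro h
    apply frob_double phi phi_nondeg
    intro z hz
    exact h z ((link1 z).2 hz)

theorem linked : IsLinked (⊥ : Ideal (D2 RR)) II J1 := by
  refine ⟨bot_le, fun x => ?_, fun y => ?_⟩
  · rw [link1]
    simp only [Ideal.mem_bot]
  · rw [link2]
    simp only [Ideal.mem_bot]

theorem II_ne_top : II ≠ ⊤ := by
  rw [Ideal.ne_top_iff_one, mem_II]
  rintro ⟨h, _⟩
  exact one_ne_zero h

theorem J1_ne_top : J1 ≠ ⊤ := by
  rw [Ideal.ne_top_iff_one, mem_J1]
  rintro ⟨h, _⟩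
  exact one_ne_zero h

instance : IsArtinianRing (D2 RR) := IsArtinianRing.of_finite ℚ (D2 RR)

theorem cm_quot (K : Ideal (D2 RR)) (hK : K ≠ ⊤) : IsCMLocal (D2 RR ⧸ K) := by
  have hnt : Nontrivial (D2 RR ⧸ K) := Ideal.Quotient.nontrivial_iff.2 hK
  have hloc : IsLocalRing (D2 RR ⧸ K) :=
    IsLocalRing.of_surjective' (Ideal.Quotient.mk K) Ideal.Quotient.mk_surjective
  exact cm_of_artinian

theorem inj_self : Module.Injective (D2 RR) (D2 RR) := frob_injective phi phi_nondeg

theorem gor : IsGorensteinLocal (D2 RR) := gor_of_injective inj_self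

theorem gorPerf : IsGorensteinPerfect (⊥ : Ideal (D2 RR)) := gorPerfect_bot inj_self

theorem betti_J1 (n : ℕ) : betti (D2 RR) J1 n ≤ (((n + 1) * (n + 3) : ℕ) : ℕ∞) :=
  betti_JJ_le n

theorem betti_II (n : ℕ) : ((3 * 2 ^ n : ℕ) : ℕ∞) ≤ 4 * betti (D2 RR) II n := by
  refine (betti_VV n).trans (le_trans ?_ (D2.betti_le (A := RR) II n))
  let f : VV →ₗ[RR] II :=
    { toFun := fun v => ⟨D2.mk 0 (v.1 1) (v.1 0) 0, by
        rw [mem_II]
        refine ⟨rfl, ?_⟩
        have h : (![v.1 0, v.1 1] : Fin 2 → RR) = v.1 :=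
          funext (Fin.forall_fin_two.2 ⟨rfl, rfl⟩)
        change (![v.1 0, v.1 1] : Fin 2 → RR) ∈ VV
        rw [h]
        exact v.2⟩
      map_add' := fun u v => by
        apply Subtype.ext
        apply D2.ext'
        · change (0 : RR) = 0 + 0; rw [add_zero]
        · rfl
        · rfl
        · change (0 : RR) = 0 + 0; rw [add_zero]
      map_smul' := fun t v => by
        apply Subtype.ext
        apply D2.ext'
        · change (0 : RR) = t * 0; rw [mul_zero]
        · rfl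
        · rfl
        · change (0 : RR) = t * 0; rw [mul_zero] }
  let g : II →ₗ[RR] VV :=
    { toFun := fun x => ⟨![pc x.1, pb x.1], ((mem_II x.1).1 x.2).2⟩
      map_add' := fun u v => by
        apply Subtype.ext
        exact funext (Fin.forall_fin_two.2 ⟨rfl, rfl⟩)
      map_smul' := fun t v => by
        apply Subtype.ext
        exact funext (Fin.forall_fin_two.2 ⟨rfl, rfl⟩) }
  refine betti_retract f g ?_ n
  apply LinearMap.ext
  intro v
  apply Subtype.ext
  exact funext (Fin.forall_fin_two.2 ⟨rfl, rfl⟩)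

end Pool.Agent.T2H43.LK
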