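import Pool.Agent.T2H43.LK.Defs

set_option autoImplicit false

open CategoryTheory Limits

/-!
# `Tor` from free resolutions
-/

namespace Pool.Agent.T2H43.LK

section gen

variable {S : Type} [CommRing S] (F : ℕ → Type) [∀ i, AddCommGroup (F i)] [∀ i, Module S (F i)]
  (D : ∀ i : ℕ, F (i + 1) →ₗ[S] F i)

section

variable (hex : ∀ i, LinearMap.range (D (i + 1)) = LinearMap.ker (D i))

include hex in
theorem DD_zero (i : ℕ) : (D i).comp (D (i + 1)) = 0 := by
  apply LinearMap.ext
  intro v
  have : D (i + 1) v ∈ LinearMap.ker (D i) := by rw [← hex i]; exact ⟨v, rfl⟩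
  exact this

/-- the complex of modules -/
noncomputable def Cx : ChainComplex (ModuleCat.{0} S) ℕ :=
  ChainComplex.of (fun i => ModuleCat.of S (F i))
    (fun i => ModuleCat.ofHom (D i))
    (fun i => by
      rw [← ModuleCat.ofHom_comp, DD_zero F D hex]
      rfl)

theorem Cx_X (i : ℕ) : (Cx F D hex).X i = ModuleCat.of S (F i) := rfl

theorem Cx_d (i : ℕ) : (Cx F D hex).d (i + 1) i = ModuleCat.ofHom (D i) := by
  exact ChainComplex.of_d (V := ModuleCat.{0} S)
    (fun i => ModuleCat.of S (F i))
    (fun i => ModuleCat.ofHom (D i)) i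

variable {M : Type} [AddCommGroup M] [Module S M] (π : F 0 →ₗ[S] M)
  (hπ : Function.Surjective π) (hker : LinearMap.range (D 0) = LinearMap.ker π)

include hker in
theorem aug_comp : ModuleCat.ofHom (D 0) ≫ ModuleCat.ofHom π = 0 := by
  rw [← ModuleCat.ofHom_comp]
  have h2 : π.comp (D 0) = 0 := by
    apply LinearMap.ext
    intro u
    have : D 0 u ∈ LinearMap.ker π := by
      rw [← hker]; exact ⟨u, rfl⟩
    exact this
  rw [h2]
  rfl

/-- the augmentation as a chain map -/
noncomputable def Cpi :
    Cx F D hex ⟶ (ChainComplex.single₀ (ModuleCat.{0} S)).obj (ModuleCat.of S M) :=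
  (ChainComplex.toSingle₀Equiv _ _).symm ⟨ModuleCat.ofHom π,
    (congrArg (fun t => t ≫ ModuleCat.ofHom π) (Cx_d F D hex 0)).trans (aug_comp F D π hker)⟩

theorem Cx_exactAt (n : ℕ) : (Cx F D hex).ExactAt (n + 1) := by
  rw [HomologicalComplex.exactAt_iff' _ (n + 1 + 1) (n + 1) n (by simp) (by simp)]
  rw [ShortComplex.moduleCat_exact_iff_range_eq_ker]
  have h1 : ((Cx F D hex).sc' (n + 1 + 1) (n + 1) n).f = ModuleCat.ofHom (D (n + 1)) :=
    Cx_d F D hex (n + 1)
  have h2 : ((Cx F D hex).sc' (n + 1 + 1) (n + 1) n).g = ModuleCat.ofHom (D n) :=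
    Cx_d F D hex n
  rw [h1, h2]
  exact hex n

/-- the projective resolution -/
noncomputable def res [∀ i, Module.Projective S (F i)] :
    ProjectiveResolution (ModuleCat.of S M) where
  complex := Cx F D hex
  projective := fun n => by
    rw [Cx_X]
    infer_instance
  π := Cpi F D hex π hker
  quasiIso := ⟨fun n => by
    cases n
    · rw [ChainComplex.quasiIsoAt₀_iff, ShortComplex.quasiIso_iff_of_zeros']
      · constructor
        · rw [ShortComplex.moduleCat_exact_iff_range_eq_ker]
          have h1 : (Cx F D hex).d 1 0 = ModuleCat.ofHom (D 0) := Cx_d F D hex 0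
          have h2 : (Cpi F D hex π hker).f 0 = ModuleCat.ofHom π :=
            ChainComplex.toSingle₀Equiv_symm_apply_f_zero _ _
          change LinearMap.range ((Cx F D hex).d 1 0).hom =
            LinearMap.ker ((Cpi F D hex π hker).f 0).hom
          rw [h1, h2]
          exact hker
        · have h2 : (Cpi F D hex π hker).f 0 = ModuleCat.ofHom π :=
            ChainComplex.toSingle₀Equiv_symm_apply_f_zero _ _
          change Epi ((Cpi F D hex π hker).f 0)
          rw [h2]
          exact (ModuleCat.epi_iff_surjective _).2 hπ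
      all_goals rfl
    · rw [quasiIsoAt_iff_exactAt']
      · exact Cx_exactAt F D hex _
      · apply ChainComplex.exactAt_succ_single_obj⟩

end

section tensor

open TensorProduct MonoidalCategory

variable (N : Type) [AddCommGroup N] [Module S N]

variable (hex : ∀ i, LinearMap.range (D (i + 1)) = LinearMap.ker (D i))
  {M : Type} [AddCommGroup M] [Module S M] (π : F 0 →ₗ[S] M)
  (hπ : Function.Surjective π) (hker : LinearMap.range (D 0) = LinearMap.ker π)

include hex hπ hker in
theorem length_tor_le [∀ i, Module.Projective S (F i)] (i : ℕ) :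
    Module.length S (((Tor (ModuleCat.{0} S) i).obj (ModuleCat.of S N)).obj
      (ModuleCat.of S M)) ≤ Module.length S (N ⊗[S] F i) := by
  have e1 := (res F D hex π hπ hker).isoLeftDerivedObj
    ((tensoringLeft (ModuleCat.{0} S)).obj (ModuleCat.of S N)) i
  have e2 := e1.toLinearEquiv.length_eq
  refine (le_of_eq (e2 : _ = _)).trans ?_
  set K' := (((tensoringLeft (ModuleCat.{0} S)).obj
    (ModuleCat.of S N)).mapHomologicalComplex (ComplexShape.down ℕ)).obj
      (Cx F D hex) with hK'
  change Module.length S (K'.homology i) ≤ _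
  have h1 : Function.Surjective (K'.homologyπ i) :=
    (ModuleCat.epi_iff_surjective _).1 inferInstance
  have h2 : Function.Injective (K'.iCycles i) :=
    (ModuleCat.mono_iff_injective _).1 inferInstance
  have h3 := Module.length_le_of_surjective (K'.homologyπ i).hom h1
  have h4 := Module.length_le_of_injective (K'.iCycles i).hom h2
  exact h3.trans h4

variable (J : Ideal S) (hmin : ∀ i (x : F (i + 1)), D i x ∈ J • (⊤ : Submodule S (F i)))

include hmin in
theorem lTensor_zero (hN : ∀ a ∈ J, ∀ x : N, a • x = 0) (i : ℕ) : (D i).lTensor N = 0 := by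
  apply TensorProduct.ext'
  intro q u
  rw [LinearMap.lTensor_tmul, LinearMap.zero_apply]
  have h1 := hmin i u
  generalize D i u = w at h1
  refine Submodule.smul_induction_on h1 (fun r hr n _ => ?_) (fun x y hx hy => ?_)
  · rw [TensorProduct.tmul_smul, TensorProduct.smul_tmul', hN r hr, TensorProduct.zero_tmul]
  · rw [TensorProduct.tmul_add, hx, hy, add_zero]

include hex hπ hker hmin in
theorem length_tor [∀ i, Module.Projective S (F i)] (hN : ∀ a ∈ J, ∀ x : N, a • x = 0) (i : ℕ) :
    Module.length S (((Tor (ModuleCat.{0} S) i).obj (ModuleCat.of S N)).obj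
      (ModuleCat.of S M)) = Module.length S (N ⊗[S] F i) := by
  have e1 := (res F D hex π hπ hker).isoLeftDerivedObj
    ((tensoringLeft (ModuleCat.{0} S)).obj (ModuleCat.of S N)) i
  have e2 := e1.toLinearEquiv.length_eq
  refine (e2 : _ = _).trans ?_
  set K' := (((tensoringLeft (ModuleCat.{0} S)).obj
    (ModuleCat.of S N)).mapHomologicalComplex (ComplexShape.down ℕ)).obj
      (Cx F D hex) with hK'
  change Module.length S (K'.homology i) = _
  have hd0 : ∀ n, K'.d (n + 1) n = 0 := by
    intro n
    change (ModuleCat.of S N) ◁ (Cx F D hex).d (n + 1) n = _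
    rw [Cx_d]
    apply ModuleCat.hom_ext
    exact lTensor_zero F D N J hmin hN n
  have hd : ∀ a b, K'.d a b = 0 := by
    intro a b
    by_cases hab : b + 1 = a
    · subst hab
      exact hd0 b
    · exact K'.shape _ _ hab
  have e3 : K'.homology i ≅ K'.X i :=
    (ShortComplex.HomologyData.ofZeros (K'.sc i) (hd _ _) (hd _ _)).left.homologyIso
  rw [e3.toLinearEquiv.length_eq]
  rfl

end tensor

end gen

section len

open TensorProduct

variable {S : Type} [CommRing S]

theorem length_tensor_pi (N : Type) [AddCommGroup N] [Module S N] (n : ℕ) :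
    Module.length S (N ⊗[S] (Fin n → S)) = n * Module.length S N := by
  have e1 : (N ⊗[S] (Fin n → S)) ≃ₗ[S] (Fin n → N) :=
    TensorProduct.piScalarRight S S N (Fin n)
  rw [e1.length_eq, Module.length_pi, ENat.card_eq_coe_fintype_card, Fintype.card_fin]

theorem length_tensor_equiv (N : Type) [AddCommGroup N] [Module S N] (n : ℕ)
    {G : Type} [AddCommGroup G] [Module S G] (e : G ≃ₗ[S] (Fin n → S)) :
    Module.length S (N ⊗[S] G) = n * Module.length S N := by
  rw [(LinearEquiv.lTensor N e).length_eq, length_tensor_pi]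

theorem length_res (S : Type) [CommRing S] [IsLocalRing S] :
    Module.length S (IsLocalRing.ResidueField S) = 1 := by
  have : IsSimpleModule S (S ⧸ IsLocalRing.maximalIdeal S) := by
    rw [isSimpleModule_iff_isCoatom]
    exact (IsLocalRing.maximalIdeal.isMaximal S).out
  exact Module.length_eq_one S (S ⧸ IsLocalRing.maximalIdeal S)

end len

/-- Retracts have smaller Betti numbers. -/
theorem betti_retract {S : Type} [CommRing S] [IsLocalRing S] {M N : Type} [AddCommGroup M]
    [Module S M] [AddCommGroup N] [Module S N] (f : M →ₗ[S] N) (g : N →ₗ[S] M)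
    (h : g.comp f = LinearMap.id) (n : ℕ) : betti S M n ≤ betti S N n := by
  unfold betti
  set T := (Tor (ModuleCat.{0} S) n).obj (ModuleCat.of S (IsLocalRing.ResidueField S)) with hT
  have h1 : T.map (ModuleCat.ofHom f) ≫ T.map (ModuleCat.ofHom g) = 𝟙 _ := by
    rw [← T.map_comp, ← ModuleCat.ofHom_comp, h]
    exact T.map_id _
  have h2 : Function.Injective (T.map (ModuleCat.ofHom f)).hom := by
    intro a b hab
    have h3 : ∀ c, (T.map (ModuleCat.ofHom g)).hom ((T.map (ModuleCat.ofHom f)).hom c) = c := by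
      intro c
      have := congrArg (fun t => t.hom c) h1
      simpa using this
    rw [← h3 a, ← h3 b, hab]
  exact Module.length_le_of_injective _ h2

/-- A free resolution of `M`, with matrices. -/
structure FR (S : Type) [CommRing S] (M : Type) [AddCommGroup M] [Module S M] where
  h : ℕ → ℕ
  D : ∀ i : ℕ, (Fin (h (i + 1)) → S) →ₗ[S] (Fin (h i) → S)
  π : (Fin (h 0) → S) →ₗ[S] M
  hex : ∀ i, LinearMap.range (D (i + 1)) = LinearMap.ker (D i)
  hπ : Function.Surjective π
  hker : LinearMap.range (D 0) = LinearMap.ker π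

theorem FR.betti_le {S : Type} [CommRing S] [IsLocalRing S] {M : Type} [AddCommGroup M]
    [Module S M] (P : FR S M) (n : ℕ) : betti S M n ≤ P.h n := by
  have := length_tor_le (S := S) (fun i => (Fin (P.h i) → S)) P.D
    (IsLocalRing.ResidueField S) P.hex P.π P.hπ P.hker n
  rw [length_tensor_pi, length_res, mul_one] at this
  exact this

/-- minimal resolutions -/
def FR.IsMin {S : Type} [CommRing S] [IsLocalRing S] {M : Type} [AddCommGroup M]
    [Module S M] (P : FR S M) : Prop :=
  (∀ x ∈ LinearMap.ker P.π, ∀ j, x j ∈ IsLocalRing.maximalIdeal S) ∧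
  ∀ i, ∀ x ∈ LinearMap.ker (P.D i), ∀ j, x j ∈ IsLocalRing.maximalIdeal S

theorem mem_smul_top {S : Type} [CommRing S] (J : Ideal S) {n : ℕ} (x : Fin n → S)
    (hx : ∀ j, x j ∈ J) : x ∈ J • (⊤ : Submodule S (Fin n → S)) := by
  have h2 : x = ∑ j, x j • (Pi.single j 1 : Fin n → S) := by
    funext z
    rw [Finset.sum_apply]
    simp [Pi.single_apply]
  rw [h2]
  exact Submodule.sum_mem _ fun j _ => Submodule.smul_mem_smul (hx j) Submodule.mem_top

theorem FR.betti_eq {S : Type} [CommRing S] [IsLocalRing S] {M : Type} [AddCommGroup M]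
    [Module S M] (P : FR S M) (hP : P.IsMin) (n : ℕ) : betti S M n = P.h n := by
  have := length_tor (S := S) (fun i => (Fin (P.h i) → S)) P.D
    (IsLocalRing.ResidueField S) P.hex P.π P.hπ P.hker (IsLocalRing.maximalIdeal S)
    (fun i x => by
      apply mem_smul_top
      cases i with
      | zero =>
        apply hP.1
        rw [← P.hker]
        exact ⟨x, rfl⟩
      | succ i =>
        apply hP.2 i
        rw [← P.hex i]
        exact ⟨x, rfl⟩)
    (fun a ha x => by
      obtain ⟨x, rfl⟩ := IsLocalRing.residue_surjective x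
      have h5 : a • (IsLocalRing.residue S x) = IsLocalRing.residue S (a * x) := rfl
      rw [h5, IsLocalRing.residue_eq_zero_iff]
      exact Ideal.mul_mem_right _ _ ha) n
  rw [length_tensor_pi, length_res, mul_one] at this
  exact this

section exist

/-- the linear map with given values on the standard basis -/
theorem lin_eq_sum {S : Type} [CommRing S] {M : Type} [AddCommGroup M] [Module S M] {n : ℕ}
    (f : (Fin n → S) →ₗ[S] M) (u : Fin n → S) :
    f u = ∑ i, u i • f (Pi.single i 1) := by
  have h2 : u = ∑ j, u j • (Pi.single j 1 : Fin n → S) := by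
    funext z
    rw [Finset.sum_apply]
    simp [Pi.single_apply]
  conv_lhs => rw [h2]
  rw [map_sum]
  exact Finset.sum_congr rfl fun i _ => map_smul _ _ _

theorem exists_min_cover {S : Type} [CommRing S] [IsLocalRing S] (M : Type) [AddCommGroup M]
    [Module S M] [Module.Finite S M] :
    ∃ (n : ℕ) (f : (Fin n → S) →ₗ[S] M), Function.Surjective f ∧
      ∀ x ∈ LinearMap.ker f, ∀ j, x j ∈ IsLocalRing.maximalIdeal S := by
  classical
  have hex : ∃ n, ∃ f : (Fin n → S) →ₗ[S] M, Function.Surjective f :=
    Module.Finite.exists_fin' S M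
  obtain ⟨f, hf⟩ := Nat.find_spec hex
  refine ⟨Nat.find hex, f, hf, ?_⟩
  intro v hv j
  by_contra hj
  have hu : IsUnit (v j) := by
    by_contra h
    exact hj ((IsLocalRing.mem_maximalIdeal _).2 h)
  have hmin := fun m hm => Nat.find_min hex (m := m) hm
  generalize hN : Nat.find hex = N at *
  cases N with
  | zero => exact j.elim0
  | succ N =>
    apply hmin N (Nat.lt_succ_self N)
    refine ⟨Fintype.linearCombination S (fun i => f (Pi.single (j.succAbove i) 1)), ?_⟩
    intro m
    obtain ⟨u, rfl⟩ := hf m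
    obtain ⟨w, hw⟩ := hu
    set c : S := u j * ((w⁻¹ : Sˣ) : S) with hc
    have h1 : f (u - c • v) = f u := by
      rw [map_sub, map_smul, (LinearMap.mem_ker.1 hv), smul_zero, sub_zero]
    have h2 : (u - c • v) j = 0 := by
      rw [Pi.sub_apply, Pi.smul_apply, smul_eq_mul, hc, ← hw, mul_assoc, Units.inv_mul, mul_one,
        sub_self]
    refine ⟨fun i => (u - c • v) (j.succAbove i), ?_⟩
    rw [← h1, lin_eq_sum f (u - c • v), Fin.sum_univ_succAbove _ j, h2, zero_smul, zero_add,
      Fintype.linearCombination_apply]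

variable (S : Type) [CommRing S] [IsLocalRing S] [IsNoetherianRing S]

theorem exists_min_cover' (s : (n : ℕ) × Submodule S (Fin n → S)) :
    ∃ (t : (n : ℕ) × Submodule S (Fin n → S)) (f : (Fin t.1 → S) →ₗ[S] (Fin s.1 → S)),
      LinearMap.range f = s.2 ∧ LinearMap.ker f = t.2 ∧
      ∀ x ∈ t.2, ∀ j, x j ∈ IsLocalRing.maximalIdeal S := by
  obtain ⟨n, f, hf, hm⟩ := exists_min_cover (S := S) (↥s.2)
  have hk : LinearMap.ker (s.2.subtype.comp f) = LinearMap.ker f := by
    rw [LinearMap.ker_comp, Submodule.ker_subtype, ← LinearMap.ker]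
  refine ⟨⟨n, LinearMap.ker f⟩, s.2.subtype.comp f, ?_, hk, hm⟩
  rw [LinearMap.range_comp, LinearMap.range_eq_top.2 hf, Submodule.map_top,
    Submodule.range_subtype]

noncomputable def nxt (s : (n : ℕ) × Submodule S (Fin n → S)) :
    (n : ℕ) × Submodule S (Fin n → S) := (exists_min_cover' S s).choose

noncomputable def seq (s : (n : ℕ) × Submodule S (Fin n → S)) :
    ℕ → (n : ℕ) × Submodule S (Fin n → S)
  | 0 => s
  | i + 1 => nxt S (seq s i)

noncomputable def seqD (s : (n : ℕ) × Submodule S (Fin n → S)) (i : ℕ) :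
    (Fin (seq S s (i + 1)).1 → S) →ₗ[S] (Fin (seq S s i).1 → S) :=
  (exists_min_cover' S (seq S s i)).choose_spec.choose

theorem seqD_spec (s : (n : ℕ) × Submodule S (Fin n → S)) (i : ℕ) :
    LinearMap.range (seqD S s i) = (seq S s i).2 ∧
    LinearMap.ker (seqD S s i) = (seq S s (i + 1)).2 ∧
      ∀ x ∈ (seq S s (i + 1)).2, ∀ j, x j ∈ IsLocalRing.maximalIdeal S :=
  (exists_min_cover' S (seq S s i)).choose_spec.choose_spec

/-- Existence of minimal free resolutions. -/
theorem exists_min_res (M : Type) [AddCommGroup M] [Module S M] [Module.Finite S M] :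
    ∃ P : FR S M, P.IsMin := by
  obtain ⟨n, f, hf, hm⟩ := exists_min_cover (S := S) M
  set s : (n : ℕ) × Submodule S (Fin n → S) := ⟨n, LinearMap.ker f⟩ with hs
  refine ⟨{ h := fun i => (seq S s i).1
            D := seqD S s
            π := f
            hex := fun i => ?_
            hπ := hf
            hker := (seqD_spec S s 0).1 }, hm, fun i => ?_⟩
  · rw [(seqD_spec S s (i + 1)).1, (seqD_spec S s i).2.1]
  · intro x hx
    rw [(seqD_spec S s i).2.1] at hx
    exact (seqD_spec S s i).2.2 x hx

end exist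

/-- Splicing. -/
def FR.splice {S : Type} [CommRing S] {M : Type} [AddCommGroup M] [Module S M] {n : ℕ}
    (f : (Fin n → S) →ₗ[S] M) (hf : Function.Surjective f) (P : FR S (LinearMap.ker f)) :
    FR S M where
  h := fun i => Nat.casesOn i n P.h
  D := fun i => match i with
    | 0 => (LinearMap.ker f).subtype.comp P.π
    | i + 1 => P.D i
  π := f
  hex := fun i => match i with
    | 0 => by
      change LinearMap.range (P.D 0) = LinearMap.ker ((LinearMap.ker f).subtype.comp P.π)
      rw [LinearMap.ker_comp, Submodule.ker_subtype, ← LinearMap.ker, P.hker]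
    | i + 1 => P.hex i
  hπ := hf
  hker := by
    change LinearMap.range ((LinearMap.ker f).subtype.comp P.π) = LinearMap.ker f
    rw [LinearMap.range_comp, LinearMap.range_eq_top.2 P.hπ, Submodule.map_top,
      Submodule.range_subtype]

/-- `M` has a free resolution whose first `n` ranks are `r 0, ..., r (n-1)`. -/
def HasRes (S : Type) [CommRing S] : ℕ → (ℕ → ℕ) → ∀ (M : Type) [AddCommGroup M]
    [Module S M], Prop
  | 0, _, _, _, _ => True
  | n + 1, r, M, _, _ => ∃ f : (Fin (r 0) → S) →ₗ[S] M, Function.Surjective f ∧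
      HasRes S n (fun i => r (i + 1)) (LinearMap.ker f)

theorem HasRes.exists_FR {S : Type} [CommRing S] [IsLocalRing S] [IsNoetherianRing S] :
    ∀ (n : ℕ) (r : ℕ → ℕ) (M : Type) [AddCommGroup M] [Module S M] [Module.Finite S M],
      HasRes S n r M → ∃ P : FR S M, ∀ i, i < n → P.h i = r i := by
  intro n
  induction n with
  | zero =>
    intro r M _ _ _ _
    obtain ⟨P, _⟩ := exists_min_res S M
    exact ⟨P, fun i hi => absurd hi (Nat.not_lt_zero i)⟩
  | succ n ih =>
    intro r M _ _ _ hM
    obtain ⟨f, hf, hk⟩ := hM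
    obtain ⟨P, hP⟩ := ih _ _ hk
    refine ⟨FR.splice f hf P, fun i hi => ?_⟩
    cases i with
    | zero => rfl
    | succ i => exact hP i (Nat.lt_of_succ_lt_succ hi)

theorem HasRes.betti_le {S : Type} [CommRing S] [IsLocalRing S] [IsNoetherianRing S]
    {r : ℕ → ℕ} {M : Type} [AddCommGroup M] [Module S M] [Module.Finite S M]
    (h : ∀ n, HasRes S n r M) (n : ℕ) : betti S M n ≤ r n := by
  obtain ⟨P, hP⟩ := HasRes.exists_FR (n + 1) r M (h (n + 1))
  rw [← hP n (Nat.lt_succ_self n)]
  exact P.betti_le n

end Pool.Agent.T2H43.LK
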