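import Mathlib

set_option autoImplicit false

/-!
# The Gorenstein ring of the cubic form
-/

namespace Pool.Agent.T2H43.LK

/-- The underlying space `k ⊕ V ⊕ V* ⊕ k` of the ring, `V = k^6`. -/
def RR : Type := ℚ × (Fin 6 → ℚ) × (Fin 6 → ℚ) × ℚ

namespace RR

instance : AddCommGroup RR := inferInstanceAs (AddCommGroup (ℚ × (Fin 6 → ℚ) × (Fin 6 → ℚ) × ℚ))
instance : Module ℚ RR := inferInstanceAs (Module ℚ (ℚ × (Fin 6 → ℚ) × (Fin 6 → ℚ) × ℚ))
instance : Module.Finite ℚ RR :=
  inferInstanceAs (Module.Finite ℚ (ℚ × (Fin 6 → ℚ) × (Fin 6 → ℚ) × ℚ))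

/-- the symmetric bilinear map `V × V → V*` -/
def B (v w : Fin 6 → ℚ) : Fin 6 → ℚ :=
  ![v 1 * w 4 + v 4 * w 1 + v 2 * w 2 + (v 3 * w 5 + v 5 * w 3),
    v 0 * w 4 + v 4 * w 0 - 2 * (v 2 * w 2) - (v 3 * w 5 + v 5 * w 3),
    v 0 * w 2 + v 2 * w 0 - 2 * (v 1 * w 2 + v 2 * w 1) + v 5 * w 5,
    v 0 * w 5 + v 5 * w 0 - (v 1 * w 5 + v 5 * w 1) + v 3 * w 3,
    v 0 * w 1 + v 1 * w 0,
    v 0 * w 3 + v 3 * w 0 - (v 1 * w 3 + v 3 * w 1) + (v 2 * w 5 + v 5 * w 2)]

def mk (a : ℚ) (v w : Fin 6 → ℚ) (c : ℚ) : RR := (a, v, w, c)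

def ra (x : RR) : ℚ := x.1
def rv (x : RR) : Fin 6 → ℚ := x.2.1
def rw' (x : RR) : Fin 6 → ℚ := x.2.2.1
def rc (x : RR) : ℚ := x.2.2.2

@[simp] theorem ra_mk (a : ℚ) (v w : Fin 6 → ℚ) (c : ℚ) : ra (mk a v w c) = a := rfl
@[simp] theorem rv_mk (a : ℚ) (v w : Fin 6 → ℚ) (c : ℚ) : rv (mk a v w c) = v := rfl
@[simp] theorem rw_mk (a : ℚ) (v w : Fin 6 → ℚ) (c : ℚ) : rw' (mk a v w c) = w := rfl
@[simp] theorem rc_mk (a : ℚ) (v w : Fin 6 → ℚ) (c : ℚ) : rc (mk a v w c) = c := rfl

@[simp] theorem ra_add (x y : RR) : ra (x + y) = ra x + ra y := rfl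
@[simp] theorem rv_add (x y : RR) (i : Fin 6) : rv (x + y) i = rv x i + rv y i := rfl
@[simp] theorem rw_add (x y : RR) (i : Fin 6) : rw' (x + y) i = rw' x i + rw' y i := rfl
@[simp] theorem rc_add (x y : RR) : rc (x + y) = rc x + rc y := rfl

@[simp] theorem ra_neg (x : RR) : ra (-x) = - ra x := rfl
@[simp] theorem rv_neg (x : RR) (i : Fin 6) : rv (-x) i = - rv x i := rfl
@[simp] theorem rw_neg (x : RR) (i : Fin 6) : rw' (-x) i = - rw' x i := rfl
@[simp] theorem rc_neg (x : RR) : rc (-x) = - rc x := rfl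

@[simp] theorem ra_zero : ra 0 = 0 := rfl
@[simp] theorem rv_zero (i : Fin 6) : rv 0 i = 0 := rfl
@[simp] theorem rw_zero (i : Fin 6) : rw' 0 i = 0 := rfl
@[simp] theorem rc_zero : rc 0 = 0 := rfl

@[simp] theorem ra_smul (t : ℚ) (x : RR) : ra (t • x) = t * ra x := rfl
@[simp] theorem rv_smul (t : ℚ) (x : RR) (i : Fin 6) : rv (t • x) i = t * rv x i := rfl
@[simp] theorem rw_smul (t : ℚ) (x : RR) (i : Fin 6) : rw' (t • x) i = t * rw' x i := rfl
@[simp] theorem rc_smul (t : ℚ) (x : RR) : rc (t • x) = t * rc x := rfl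

theorem ext' {x y : RR} (h1 : ra x = ra y) (h2 : ∀ i, rv x i = rv y i)
    (h3 : ∀ i, rw' x i = rw' y i) (h4 : rc x = rc y) : x = y :=
  Prod.ext h1 (Prod.ext (funext h2) (Prod.ext (funext h3) h4))

instance : Mul RR := ⟨fun x y => mk (ra x * ra y) (fun i => ra x * rv y i + ra y * rv x i)
  (fun i => ra x * rw' y i + ra y * rw' x i + B (rv x) (rv y) i)
  (ra x * rc y + ra y * rc x + ∑ i, (rw' x i * rv y i + rw' y i * rv x i))⟩

instance : One RR := ⟨mk 1 0 0 0⟩

@[simp] theorem ra_mul (x y : RR) : ra (x * y) = ra x * ra y := rfl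
@[simp] theorem rv_mul (x y : RR) (i : Fin 6) :
    rv (x * y) i = ra x * rv y i + ra y * rv x i := rfl
@[simp] theorem rw_mul (x y : RR) (i : Fin 6) :
    rw' (x * y) i = ra x * rw' y i + ra y * rw' x i + B (rv x) (rv y) i := rfl
@[simp] theorem rc_mul (x y : RR) :
    rc (x * y) = ra x * rc y + ra y * rc x + ∑ i, (rw' x i * rv y i + rw' y i * rv x i) := rfl
@[simp] theorem ra_one : ra 1 = 1 := rfl
@[simp] theorem rv_one (i : Fin 6) : rv 1 i = 0 := rfl
@[simp] theorem rw_one (i : Fin 6) : rw' 1 i = 0 := rfl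
@[simp] theorem rc_one : rc 1 = 0 := rfl

theorem mul_comm' (x y : RR) : x * y = y * x := by
  apply ext'
  · simp [mul_comm]
  · intro i
    simp only [rv_mul]; ring
  · intro i
    fin_cases i <;> simp [B] <;> ring
  · simp only [rc_mul, Fin.sum_univ_six]; ring

theorem one_mul' (x : RR) : 1 * x = x := by
  apply ext'
  · simp
  · intro i
    simp
  · intro i
    fin_cases i <;> simp [B]
  · simp

theorem add_mul' (x y z : RR) : (x + y) * z = x * z + y * z := by
  apply ext'
  · simp only [ra_mul, ra_add]; ring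
  · intro i
    simp only [rv_mul, ra_add, rv_add]; ring
  · intro i
    fin_cases i <;> simp [B] <;> ring
  · simp only [rc_mul, Fin.sum_univ_six, rc_add, ra_add, rw_add, rv_add]; ring

theorem mul_assoc' (x y z : RR) : x * y * z = x * (y * z) := by
  apply ext'
  · simp only [ra_mul]; ring
  · intro i
    simp only [rv_mul, ra_mul]; ring
  · intro i
    fin_cases i <;> simp [B] <;> ring
  · simp only [rc_mul, Fin.sum_univ_six, ra_mul, rw_mul, rv_mul]
    simp [B]
    ring

instance : CommRing RR :=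
  { (inferInstance : AddCommGroup RR) with
    mul := (· * ·)
    one := 1
    left_distrib := fun a b c => by
      rw [mul_comm', add_mul', mul_comm' b, mul_comm' c]
    right_distrib := add_mul'
    zero_mul := fun a => by
      have h := add_mul' 0 0 a
      rw [add_zero] at h
      exact left_eq_add.1 h
    mul_zero := fun a => by
      have h := add_mul' 0 0 a
      rw [add_zero] at h
      rw [mul_comm']
      exact left_eq_add.1 h
    mul_assoc := mul_assoc'
    one_mul := one_mul'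
    mul_one := fun a => by rw [mul_comm', one_mul']
    mul_comm := mul_comm' }

@[simp] theorem ra_sub (x y : RR) : ra (x - y) = ra x - ra y := by rw [sub_eq_add_neg]; simp; ring
@[simp] theorem rv_sub (x y : RR) (i : Fin 6) : rv (x - y) i = rv x i - rv y i := by
  rw [sub_eq_add_neg]; simp; ring
@[simp] theorem rw_sub (x y : RR) (i : Fin 6) : rw' (x - y) i = rw' x i - rw' y i := by
  rw [sub_eq_add_neg]; simp; ring
@[simp] theorem rc_sub (x y : RR) : rc (x - y) = rc x - rc y := by rw [sub_eq_add_neg]; simp; ring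

noncomputable instance : Algebra ℚ RR :=
  Algebra.ofModule
    (fun t x y => by
      apply ext'
      · simp only [ra_mul, ra_smul]; ring
      · intro i
        simp only [rv_mul, ra_smul, rv_smul]; ring
      · intro i
        fin_cases i <;> simp [B] <;> ring
      · simp only [rc_mul, Fin.sum_univ_six, rc_smul, ra_smul, rw_smul, rv_smul]; ring)
    (fun t x y => by
      apply ext'
      · simp only [ra_mul, ra_smul]; ring
      · intro i
        simp only [rv_mul, ra_smul, rv_smul]; ring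
      · intro i
        fin_cases i <;> simp [B] <;> ring
      · simp only [rc_mul, Fin.sum_univ_six, rc_smul, ra_smul, rw_smul, rv_smul]; ring)

end RR

end Pool.Agent.T2H43.LK
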